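import Mathlib

set_option autoImplicit false

namespace Pool.Agent.Lib.MP_11675a_co

/-- product in `ℚ(√-m)`, elements written as pairs -/
def qmul (m : ℚ) (x y : ℚ × ℚ) : ℚ × ℚ := (x.1 * y.1 - m * x.2 * y.2, x.1 * y.2 + x.2 * y.1)

/-- norm one -/
def Uni (m : ℚ) (x : ℚ × ℚ) : Prop := x.1 ^ 2 + m * x.2 ^ 2 = 1

/-- the norm one element `(1 + ρ√-m)/(1 - ρ√-m)` -/
def el (m ρ : ℚ) : ℚ × ℚ := ((1 - m * ρ ^ 2) / (1 + m * ρ ^ 2), 2 * ρ / (1 + m * ρ ^ 2))

lemma den_pos {m : ℚ} (hm : 0 < m) (ρ : ℚ) : 0 < 1 + m * ρ ^ 2 := by positivity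

lemma uni_one (m : ℚ) : Uni m (1, 0) := by simp [Uni]

lemma uni_el {m : ℚ} (hm : 0 < m) (ρ : ℚ) : Uni m (el m ρ) := by
  have := (den_pos hm ρ).ne'
  simp only [Uni, el]
  field_simp
  ring

lemma uni_mul {m : ℚ} {x y : ℚ × ℚ} (hx : Uni m x) (hy : Uni m y) : Uni m (qmul m x y) := by
  simp only [Uni, qmul] at *
  have : (x.1 * y.1 - m * x.2 * y.2) ^ 2 + m * (x.1 * y.2 + x.2 * y.1) ^ 2 =
      (x.1 ^ 2 + m * x.2 ^ 2) * (y.1 ^ 2 + m * y.2 ^ 2) := by ring
  rw [this, hx, hy, one_mul]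

/-- the cell relation -/
lemma cell {m : ℚ} (hm : 0 < m) (a b τ : ℚ) :
    (a + b) • (el m (b * τ)) + (a - b) • (qmul m (el m (a * τ)) (el m (b * τ))) =
      (a + b) • (el m (a * τ)) + (a - b) • ((1, 0) : ℚ × ℚ) := by
  have h1 := (den_pos hm (a * τ)).ne'
  have h2 := (den_pos hm (b * τ)).ne'
  ext
  · simp only [el, qmul, Prod.smul_mk, Prod.mk_add_mk, smul_eq_mul]
    field_simp
    ring
  · simp only [el, qmul, Prod.smul_mk, Prod.mk_add_mk, smul_eq_mul]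
    field_simp
    ring

/-- the main relation -/
lemma mainRel {m : ℚ} (hm : 0 < m) (p c ρ σ : ℚ) (h : c * m * ρ * σ = -p) :
    (p - c) • ((1, 0) : ℚ × ℚ) + (p - c) • (qmul m (el m ρ) (el m σ)) +
      (p + c) • (el m ρ) + (p + c) • (el m σ) = 0 := by
  have h1 := (den_pos hm ρ).ne'
  have h2 := (den_pos hm σ).ne'
  have hp : p = -(c * m * ρ * σ) := by linarith
  subst hp
  ext
  · simp only [el, qmul, Prod.smul_mk, Prod.mk_add_mk, smul_eq_mul, Prod.fst_zero]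
    field_simp
    ring
  · simp only [el, qmul, Prod.smul_mk, Prod.mk_add_mk, smul_eq_mul, Prod.snd_zero]
    field_simp
    ring


/-- admissible pairs `(a, β)` -/
def Ok (x : ℤ × ℤ) : Prop := 0 < x.1 ∧ x.1 % 2 = 1 ∧ x.2 ≤ x.1 ∧ -x.1 ≤ x.2 ∧ (x.1 - x.2) % 4 = 0

lemma exists_nat_four {z : ℤ} (h0 : 0 ≤ z) (h4 : z % 4 = 0) : ∃ n : ℕ, z = 4 * (n : ℤ) := by
  refine ⟨(z / 4).toNat, ?_⟩
  rw [Int.toNat_of_nonneg (by omega)]
  omega

lemma rightChain {m : ℚ} (hm : 0 < m) : ∀ (t : List (ℤ × ℤ)) (x : ℤ × ℤ),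
    (∀ y ∈ x :: t, Ok y) → (x :: t).Pairwise (fun u w => w.1 + w.2 ≤ u.1 + u.2) →
    ∀ ρ₀ : ℚ, ∃ (N : Multiset (ℚ × ℚ)) (ρk : ℚ) (vk : ℤ), 0 ≤ vk ∧ vk % 4 = 2 ∧
      ρk * (((x :: t).map (fun y => y.1)).prod : ℤ) = ρ₀ * (((x :: t).map (fun y => y.2)).prod : ℤ) ∧
      (4 : ℚ) • N.sum + (vk : ℚ) • el m ρk = ((x.1 : ℚ) + x.2) • el m ρ₀ +
        ((((x :: t).map (fun y => y.1 - y.2)).sum : ℤ) : ℚ) • ((1, 0) : ℚ × ℚ) ∧
      4 * (Multiset.card N : ℤ) + vk = x.1 + x.2 + ((x :: t).map (fun y => y.1 - y.2)).sum ∧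
      ∀ z ∈ N, Uni m z := by
  intro t
  induction t with
  | nil =>
    intro x hok _ ρ₀
    obtain ⟨h1, h2, h3, h4, h5⟩ := hok x (by simp)
    obtain ⟨n, hn⟩ := exists_nat_four (z := x.1 - x.2) (by omega) h5
    have ha : (x.1 : ℚ) ≠ 0 := by
      have : x.1 ≠ 0 := by omega
      exact_mod_cast this
    have hcell := cell hm (x.1 : ℚ) (x.2 : ℚ) (ρ₀ / x.1)
    have e1 : (x.1 : ℚ) * (ρ₀ / x.1) = ρ₀ := by field_simp
    rw [e1] at hcell
    refine ⟨Multiset.replicate n (qmul m (el m ρ₀) (el m (x.2 * (ρ₀ / x.1)))),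
      x.2 * (ρ₀ / x.1), x.1 + x.2, by omega, by omega, ?_, ?_, ?_, ?_⟩
    · simp
      field_simp
    · have hq : ((x.1 : ℚ) - x.2) = 4 * (n : ℚ) := by exact_mod_cast hn
      rw [Multiset.sum_replicate]
      simp only [List.map_cons, List.map_nil, List.sum_cons, List.sum_nil, add_zero]
      push_cast
      rw [← hcell, add_comm, hq, ← Nat.cast_smul_eq_nsmul ℚ, smul_smul]
    · simp
      omega
    · intro z hz
      rw [Multiset.eq_of_mem_replicate hz]
      exact uni_mul (uni_el hm _) (uni_el hm _)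
  | cons y t ih =>
    intro x hok hs ρ₀
    obtain ⟨h1, h2, h3, h4, h5⟩ := hok x (by simp)
    obtain ⟨k1, k2, k3, k4, k5⟩ := hok y (by simp)
    obtain ⟨n, hn⟩ := exists_nat_four (z := x.1 - x.2) (by omega) h5
    have hxy : y.1 + y.2 ≤ x.1 + x.2 := by
      have := (List.pairwise_cons.mp hs).1 y (by simp)
      exact this
    obtain ⟨n', hn'⟩ := exists_nat_four (z := (x.1 + x.2) - (y.1 + y.2)) (by omega) (by omega)
    have ha : (x.1 : ℚ) ≠ 0 := by
      have : x.1 ≠ 0 := by omega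
      exact_mod_cast this
    have hcell := cell hm (x.1 : ℚ) (x.2 : ℚ) (ρ₀ / x.1)
    have e1 : (x.1 : ℚ) * (ρ₀ / x.1) = ρ₀ := by field_simp
    rw [e1] at hcell
    obtain ⟨N, ρk, vk, hv0, hv4, hρ, hsum, hcard, huni⟩ :=
      ih y (fun z hz => hok z (List.mem_cons_of_mem _ hz)) (List.pairwise_cons.mp hs).2
        (x.2 * (ρ₀ / x.1))
    refine ⟨N + Multiset.replicate n' (el m (x.2 * (ρ₀ / x.1))) +
      Multiset.replicate n (qmul m (el m ρ₀) (el m (x.2 * (ρ₀ / x.1)))), ρk, vk, hv0, hv4,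
      ?_, ?_, ?_, ?_⟩
    · rw [List.map_cons, List.prod_cons, List.map_cons (f := fun y : ℤ × ℤ => y.2),
        List.prod_cons, Int.cast_mul, Int.cast_mul]
      have : ρk * ((x.1 : ℚ) * (((y :: t).map (fun y => y.1)).prod : ℤ)) =
          x.1 * (ρk * (((y :: t).map (fun y => y.1)).prod : ℤ)) := by ring
      rw [this, hρ]
      field_simp
    · have hq : ((x.1 : ℚ) - x.2) = 4 * (n : ℚ) := by exact_mod_cast hn
      have hq' : ((x.1 : ℚ) + x.2) - ((y.1 : ℚ) + y.2) = 4 * (n' : ℚ) := by exact_mod_cast hn'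
      rw [Multiset.sum_add, Multiset.sum_add, Multiset.sum_replicate, Multiset.sum_replicate,
        List.map_cons, List.sum_cons, Int.cast_add, Int.cast_sub]
      rw [← Nat.cast_smul_eq_nsmul ℚ, ← Nat.cast_smul_eq_nsmul ℚ, smul_add, smul_add, smul_smul,
        smul_smul, ← hq, ← hq']
      have h6 : (4 : ℚ) • N.sum = ((y.1 : ℚ) + y.2) • el m (x.2 * (ρ₀ / x.1)) +
        ((((y :: t).map (fun y => y.1 - y.2)).sum : ℤ) : ℚ) • ((1, 0) : ℚ × ℚ)
        - (vk : ℚ) • el m ρk := by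
        rw [← hsum]; abel
      rw [h6]
      have h7 := hcell
      rw [add_smul _ _ ((1, 0) : ℚ × ℚ)]
      have h8 : ((x.1 : ℚ) + x.2) • el m ρ₀ = ((x.1 : ℚ) + x.2) • el m (x.2 * (ρ₀ / x.1)) +
        ((x.1 : ℚ) - x.2) • (qmul m (el m ρ₀) (el m (x.2 * (ρ₀ / x.1)))) -
        ((x.1 : ℚ) - x.2) • ((1, 0) : ℚ × ℚ) := by
        rw [h7]; abel
      rw [h8, sub_smul ((x.1 : ℚ) + x.2)]
      abel
    · rw [List.map_cons, List.sum_cons]
      simp only [Multiset.card_add, Multiset.card_replicate]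
      push_cast
      linarith
    · intro z hz
      rw [Multiset.mem_add, Multiset.mem_add] at hz
      rcases hz with (hz | hz) | hz
      · exact huni z hz
      · rw [Multiset.eq_of_mem_replicate hz]
        exact uni_el hm _
      · rw [Multiset.eq_of_mem_replicate hz]
        exact uni_mul (uni_el hm _) (uni_el hm _)


lemma chainOrdered {p M : ℤ} (hp : 0 < p) (hM : 0 < M) (hp2 : p % 2 = 1) (c w : ℤ)
    (hc : (p - c) % 4 = 0) (x y : ℤ × ℤ) (t : List (ℤ × ℤ)) (hok : ∀ z ∈ x :: t, Ok z)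
    (hoky : Ok y) (hs : (x :: t).Pairwise (fun u w => w.1 + w.2 ≤ u.1 + u.2))
    (hx : x.1 + x.2 ≤ p + c) (hy : y.1 + y.2 ≤ p + c)
    (hV : ((x :: t).map (fun y => y.1 - y.2)).sum + (y.1 - y.2) ≤ p - c)
    (hprod : -c * (((x :: t).map (fun y => y.1)).prod * ((x :: t).map (fun y => y.2)).prod
      * (y.1 * y.2)) = M * w ^ 2) (hβ : ((x :: t).map (fun y => y.2)).prod ≠ 0)
    (hα : ((x :: t).map (fun y => y.1)).prod ≠ 0) (hyβ : y.2 ≠ 0) (hc0 : c ≠ 0) :
    ∃ N : Multiset (ℚ × ℚ), (Multiset.card N : ℤ) = p ∧ N.sum = 0 ∧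
      ∀ z ∈ N, Uni ((p * M : ℤ) : ℚ) z := by
  have hm : (0 : ℚ) < ((p * M : ℤ) : ℚ) := by exact_mod_cast mul_pos hp hM
  set m : ℚ := ((p * M : ℤ) : ℚ) with hmdef
  set PA : ℤ := ((x :: t).map (fun y => y.1)).prod with hPA
  set PB : ℤ := ((x :: t).map (fun y => y.2)).prod with hPB
  set V : ℤ := ((x :: t).map (fun y => y.1 - y.2)).sum with hVdef
  obtain ⟨k1, k2, k3, k4, k5⟩ := hoky
  have hc0' : (c : ℚ) ≠ 0 := by exact_mod_cast hc0
  have hPA' : (PA : ℚ) ≠ 0 := by exact_mod_cast hα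
  have hPB' : (PB : ℚ) ≠ 0 := by exact_mod_cast hβ
  have hy1 : (y.1 : ℚ) ≠ 0 := by
    have : y.1 ≠ 0 := by omega
    exact_mod_cast this
  have hy2 : (y.2 : ℚ) ≠ 0 := by exact_mod_cast hyβ
  obtain ⟨N, ρk, vk, hv0, hv4, hρ, hsum, hcard, huni⟩ :=
    rightChain hm t x hok hs ((w : ℚ) / (c * y.1 * PB))
  rw [← hPA, ← hPB] at hρ
  rw [← hVdef] at hsum hcard
  obtain ⟨h1, h2, h3, h4, h5⟩ := hok x (by simp)
  have hVmod : V % 4 = 0 := by
    omega
  obtain ⟨n1, hn1⟩ := exists_nat_four (z := p - c - V - (y.1 - y.2)) (by omega) (by omega)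
  obtain ⟨n2, hn2⟩ := exists_nat_four (z := p + c - (x.1 + x.2)) (by omega) (by omega)
  obtain ⟨n3, hn3⟩ := exists_nat_four (z := p + c - (y.1 + y.2)) (by omega) (by omega)
  have hV0 : 0 ≤ V := by
    rw [hVdef]
    apply List.sum_nonneg
    intro z hz
    obtain ⟨q, hq, rfl⟩ := List.mem_map.mp hz
    have := (hok q hq).2.2.1
    omega
  obtain ⟨n4, hn4⟩ := exists_nat_four (z := p - c) (by omega) (by omega)
  obtain ⟨n5, hn5⟩ := exists_nat_four (z := y.1 - y.2) (by omega) (by omega)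
  obtain ⟨n6, hn6⟩ := exists_nat_four (z := vk + (y.1 + y.2)) (by omega) (by omega)
  set ρ₀ : ℚ := (w : ℚ) / (c * y.1 * PB) with hρ₀
  set τ : ℚ := ρk / y.2 with hτ
  have hcell := cell hm (y.1 : ℚ) (y.2 : ℚ) τ
  have e1 : (y.2 : ℚ) * τ = ρk := by rw [hτ]; field_simp
  rw [e1] at hcell
  have hmain := mainRel hm (p : ℚ) (c : ℚ) ρ₀ (y.1 * τ) (by
    have hρk : ρk = ρ₀ * PB / PA := by
      field_simp
      linarith
    rw [hτ, hρk, hρ₀, hmdef]
    have hq : -(c : ℚ) * (PA * PB * (y.1 * y.2)) = M * (w : ℚ) ^ 2 := by exact_mod_cast hprod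
    push_cast
    field_simp
    have : (M : ℚ) * (w : ℚ) ^ 2 = -(c : ℚ) * (PA * PB * (y.1 * y.2)) := hq.symm
    linear_combination this)
  refine ⟨N + Multiset.replicate n1 (1, 0) + Multiset.replicate n2 (el m ρ₀) +
    Multiset.replicate n3 (el m (y.1 * τ)) + Multiset.replicate n4 (qmul m (el m ρ₀) (el m (y.1 * τ)))
    + Multiset.replicate n5 (qmul m (el m (y.1 * τ)) (el m ρk)) +
    Multiset.replicate n6 (el m ρk), ?_, ?_, ?_⟩
  · simp only [Multiset.card_add, Multiset.card_replicate]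
    push_cast
    linarith
  · have q1 : ((p : ℚ) - c - V - (y.1 - y.2)) = 4 * n1 := by exact_mod_cast hn1
    have q2 : ((p : ℚ) + c - (x.1 + x.2)) = 4 * n2 := by exact_mod_cast hn2
    have q3 : ((p : ℚ) + c - (y.1 + y.2)) = 4 * n3 := by exact_mod_cast hn3
    have q4 : ((p : ℚ) - c) = 4 * n4 := by exact_mod_cast hn4
    have q5 : ((y.1 : ℚ) - y.2) = 4 * n5 := by exact_mod_cast hn5
    have q6 : ((vk : ℚ) + (y.1 + y.2)) = 4 * n6 := by exact_mod_cast hn6
    have h4' : (4 : ℚ) ≠ 0 := by norm_num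
    have key : (4 : ℚ) • (N + Multiset.replicate n1 ((1, 0) : ℚ × ℚ) +
        Multiset.replicate n2 (el m ρ₀) +
        Multiset.replicate n3 (el m (y.1 * τ)) +
        Multiset.replicate n4 (qmul m (el m ρ₀) (el m (y.1 * τ)))
        + Multiset.replicate n5 (qmul m (el m (y.1 * τ)) (el m ρk)) +
        Multiset.replicate n6 (el m ρk)).sum = 0 := by
      simp only [Multiset.sum_add, Multiset.sum_replicate]
      simp only [← Nat.cast_smul_eq_nsmul ℚ, smul_add, smul_smul]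
      rw [← q1, ← q2, ← q3, ← q4, ← q5, ← q6]
      have h6 : (4 : ℚ) • N.sum = ((x.1 : ℚ) + x.2) • el m ρ₀ + (V : ℚ) • ((1, 0) : ℚ × ℚ)
        - (vk : ℚ) • el m ρk := by
        rw [← hsum]; abel
      rw [h6]
      have h8 : ((y.1 : ℚ) - y.2) • (qmul m (el m (y.1 * τ)) (el m ρk)) =
          ((y.1 : ℚ) + y.2) • el m (y.1 * τ) + ((y.1 : ℚ) - y.2) • ((1, 0) : ℚ × ℚ)
          - ((y.1 : ℚ) + y.2) • el m ρk := by
        rw [← hcell]; abel
      rw [h8]
      rw [← hmain]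
      simp only [sub_smul, add_smul]
      abel
    exact (smul_eq_zero.mp key).resolve_left h4'
  · intro z hz
    simp only [Multiset.mem_add] at hz
    rcases hz with (((((hz | hz) | hz) | hz) | hz) | hz) | hz
    · exact huni z hz
    · rw [Multiset.eq_of_mem_replicate hz]
      exact uni_one _
    · rw [Multiset.eq_of_mem_replicate hz]
      exact uni_el hm _
    · rw [Multiset.eq_of_mem_replicate hz]
      exact uni_el hm _
    · rw [Multiset.eq_of_mem_replicate hz]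
      exact uni_mul (uni_el hm _) (uni_el hm _)
    · rw [Multiset.eq_of_mem_replicate hz]
      exact uni_mul (uni_el hm _) (uni_el hm _)
    · rw [Multiset.eq_of_mem_replicate hz]
      exact uni_el hm _


/-- The chain theorem. -/
theorem chain {p M : ℤ} (hp : 0 < p) (hM : 0 < M) (hp2 : p % 2 = 1) (c w : ℤ)
    (hc : (p - c) % 4 = 0) (hpc : 0 ≤ p + c) (l : List (ℤ × ℤ)) (hok : ∀ z ∈ l, Ok z)
    (hv : ∀ z ∈ l, z.1 + z.2 ≤ p + c)
    (hV : (l.map (fun y => y.1 - y.2)).sum ≤ p - c)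
    (hprod : -c * ((l.map (fun y => y.1)).prod * (l.map (fun y => y.2)).prod) = M * w ^ 2) :
    ∃ N : Multiset (ℚ × ℚ), (Multiset.card N : ℤ) = p ∧ N.sum = 0 ∧
      ∀ z ∈ N, Uni ((p * M : ℤ) : ℚ) z := by
  classical
  let r : ℤ × ℤ → ℤ × ℤ → Prop := fun u w => w.1 + w.2 ≤ u.1 + u.2
  haveI : Std.Total r := ⟨fun a b => by simp only [r]; omega⟩
  haveI : IsTrans (ℤ × ℤ) r := ⟨fun a b c => by simp only [r]; omega⟩
  let s := ((1, 1) :: (1, 1) :: l : List (ℤ × ℤ)).insertionSort r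
  have hperm : s.Perm ((1, 1) :: (1, 1) :: l) := List.perm_insertionSort r _
  have hsort : s.Pairwise r := List.pairwise_insertionSort r _
  have hlen : 2 ≤ s.length := by rw [hperm.length_eq]; simp
  have hmem : ∀ z ∈ s, Ok z ∧ z.1 + z.2 ≤ p + c ∧ z.2 ≠ 0 ∧ z.1 ≠ 0 := by
    intro z hz
    rw [hperm.mem_iff] at hz
    simp only [List.mem_cons] at hz
    rcases hz with rfl | rfl | hz
    · refine ⟨⟨by norm_num, by norm_num, by norm_num, by norm_num, by norm_num⟩, ?_,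
        by norm_num, by norm_num⟩
      simp only
      omega
    · refine ⟨⟨by norm_num, by norm_num, by norm_num, by norm_num, by norm_num⟩, ?_,
        by norm_num, by norm_num⟩
      simp only
      omega
    · obtain ⟨h1, h2, h3, h4, h5⟩ := hok z hz
      exact ⟨⟨h1, h2, h3, h4, h5⟩, hv z hz, by omega, by omega⟩
  have hsumV : (s.map (fun y => y.1 - y.2)).sum = (l.map (fun y => y.1 - y.2)).sum := by
    rw [(hperm.map _).sum_eq]
    simp
  have hprA : (s.map (fun y => y.1)).prod = (l.map (fun y => y.1)).prod := by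
    rw [(hperm.map _).prod_eq]
    simp
  have hprB : (s.map (fun y => y.2)).prod = (l.map (fun y => y.2)).prod := by
    rw [(hperm.map _).prod_eq]
    simp
  match hs : s, hlen with
  | y :: x :: t, _ =>
    rw [hs] at hsort hmem hsumV hprA hprB
    have hxt : ∀ z ∈ x :: t, z ∈ y :: x :: t := fun z hz => List.mem_cons_of_mem _ hz
    refine chainOrdered hp hM hp2 c w hc x y t (fun z hz => (hmem z (hxt z hz)).1)
      (hmem y (by simp)).1 (List.pairwise_cons.mp hsort).2 (hmem x (by simp)).2.1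
      (hmem y (by simp)).2.1 ?_ ?_ ?_ ?_ (hmem y (by simp)).2.2.1 (by omega)
    · rw [List.map_cons, List.sum_cons] at hsumV
      omega
    · rw [← hprod, ← hprA, ← hprB]
      simp only [List.map_cons, List.prod_cons]
      ring
    · apply List.prod_ne_zero
      intro h0
      obtain ⟨q, hq, hq0⟩ := List.mem_map.mp h0
      exact (hmem q (hxt q hq)).2.2.1 hq0
    · apply List.prod_ne_zero
      intro h0
      obtain ⟨q, hq, hq0⟩ := List.mem_map.mp h0
      exact (hmem q (hxt q hq)).2.2.2 hq0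

end Pool.Agent.Lib.MP_11675a_co
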