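import Mathlib
import Pool.Agent.Lib.MP_11675a_co.Chain

set_option autoImplicit false

namespace Pool.Agent.Lib.MP_11675a_co

lemma all_eq_of_sq {p : ℕ} [Fact p.Prime] (hp2 : p ≠ 2) (x : ℕ → ZMod p) (A : ZMod p)
    (hA : A ≠ 0) (hx : ∀ i < p, x i ^ 2 = A) (hs : ∑ i ∈ Finset.range p, x i = 0) :
    ∀ i < p, x i = x 0 := by
  have hp : p.Prime := Fact.out
  have hp0 : 0 < p := hp.pos
  have hx0 : x 0 ≠ 0 := by
    intro h
    apply hA
    rw [← hx 0 hp0, h]
    simp
  have hpm : ∀ i < p, x i = x 0 ∨ x i = -x 0 := by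
    intro i hi
    have : x i ^ 2 = x 0 ^ 2 := by rw [hx i hi, hx 0 hp0]
    exact sq_eq_sq_iff_eq_or_eq_neg.mp this
  classical
  let P := (Finset.range p).filter (fun i => x i = x 0)
  let Q := (Finset.range p).filter (fun i => ¬ x i = x 0)
  have hsum : ∑ i ∈ Finset.range p, x i = (P.card : ZMod p) * x 0 - (Q.card : ZMod p) * x 0 := by
    rw [← Finset.sum_filter_add_sum_filter_not (Finset.range p) (fun i => x i = x 0)]
    have h1 : ∑ i ∈ (Finset.range p).filter (fun i => x i = x 0), x i = (P.card : ZMod p) * x 0 := by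
      rw [Finset.sum_congr rfl (g := fun _ => x 0) (fun i hi => (Finset.mem_filter.mp hi).2)]
      simp [P]
    have h2 : ∑ i ∈ (Finset.range p).filter (fun i => ¬ x i = x 0), x i
        = -((Q.card : ZMod p) * x 0) := by
      rw [Finset.sum_congr rfl (g := fun _ => -x 0) (fun i hi => by
        have := Finset.mem_filter.mp hi
        exact (hpm i (Finset.mem_range.mp this.1)).resolve_left this.2)]
      simp [Q]
    rw [h1, h2]
    ring
  have hcard : P.card + Q.card = p := by
    have := Finset.card_filter_add_card_filter_not (s := Finset.range p) (fun i => x i = x 0)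
    rw [Finset.card_range] at this
    exact this
  have h0 : ((2 * P.card : ℕ) : ZMod p) = 0 := by
    rw [hs] at hsum
    have h3 : ((P.card : ZMod p) - (Q.card : ZMod p)) * x 0 = 0 := by
      rw [sub_mul]; exact hsum.symm
    have h4 : (P.card : ZMod p) - (Q.card : ZMod p) = 0 :=
      (mul_eq_zero.mp h3).resolve_right hx0
    have h5 : (P.card : ZMod p) + (Q.card : ZMod p) = (p : ZMod p) := by
      exact_mod_cast congrArg (Nat.cast : ℕ → ZMod p) hcard
    have h6 : (p : ZMod p) = 0 := by simp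
    push_cast
    linear_combination h4 + h5 + h6
  have hdvd : p ∣ 2 * P.card := (ZMod.natCast_eq_zero_iff _ _).mp h0
  have hdvd' : p ∣ P.card := by
    rcases hp.dvd_mul.mp hdvd with h | h
    · exfalso
      exact hp2 ((Nat.prime_dvd_prime_iff_eq hp Nat.prime_two).mp h)
    · exact h
  have hPpos : 0 < P.card := Finset.card_pos.mpr ⟨0, by simp [P, hp0]⟩
  have hPle : p ≤ P.card := Nat.le_of_dvd hPpos hdvd'
  have hQ : Q.card = 0 := by omega
  intro i hi
  by_contra hne
  have : i ∈ Q := by simp [Q, hi, hne]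
  rw [Finset.card_eq_zero] at hQ
  rw [hQ] at this
  simp at this

lemma block_ne_zero {p : ℕ} [Fact p.Prime] (hp2 : p ≠ 2) (x : ℕ → ℤ) (A : ZMod p)
    (hA : A ≠ 0) (hx : ∀ i < p, ((x i : ℤ) : ZMod p) ^ 2 = A)
    (hs : ∑ i ∈ Finset.range p, x i = 0) (i j : ℕ) (hij : i < j) (hj : j < p) :
    ∑ k ∈ Finset.Ico i j, x k ≠ 0 := by
  have hp : p.Prime := Fact.out
  have hall := all_eq_of_sq hp2 (fun i => ((x i : ℤ) : ZMod p)) A hA hx (by
    have := congrArg (fun z : ℤ => (z : ZMod p)) hs
    push_cast at this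
    simpa using this)
  intro h
  have h1 := congrArg (fun z : ℤ => (z : ZMod p)) h
  push_cast at h1
  rw [Finset.sum_congr rfl (g := fun _ => ((x 0 : ℤ) : ZMod p)) (fun k hk => by
    have := Finset.mem_Ico.mp hk
    exact hall k (by omega))] at h1
  simp only [Finset.sum_const, Nat.card_Ico, nsmul_eq_mul] at h1
  rcases mul_eq_zero.mp h1 with h2 | h2
  · have := (ZMod.natCast_eq_zero_iff _ _).mp h2
    have := Nat.le_of_dvd (by omega) this
    omega
  · apply hA
    rw [← hx 0 hp.pos, h2]
    simp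

lemma steps_distinct {p M : ℕ} (hp : p.Prime) (hp2 : p ≠ 2) (hpM : ¬ p ∣ M) :
    ∀ (n : ℕ) (s t : ℕ → ℤ), 0 < n → (∀ i < p, s i ^ 2 + (p * M : ℤ) * t i ^ 2 = n) →
    ∑ i ∈ Finset.range p, s i = 0 → ∑ i ∈ Finset.range p, t i = 0 →
    ∀ i j, i < j → j < p → ¬ (∑ k ∈ Finset.Ico i j, s k = 0 ∧ ∑ k ∈ Finset.Ico i j, t k = 0) := by
  haveI : Fact p.Prime := ⟨hp⟩
  have hpZ : Prime (p : ℤ) := Nat.prime_iff_prime_int.mp hp
  have hp0 : (p : ℤ) ≠ 0 := by exact_mod_cast hp.ne_zero
  intro n
  induction n using Nat.strong_induction_on with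
  | _ n ih =>
  intro s t hn hN hs ht i j hij hj
  by_cases hpn : (p : ℤ) ∣ (n : ℤ)
  · obtain ⟨n', hn'⟩ := hpn
    have hdiv : ∀ k < p, (p : ℤ) ∣ s k := by
      intro k hk
      have : (p : ℤ) ∣ s k ^ 2 := by
        have h := hN k hk
        rw [hn'] at h
        exact ⟨n' - M * t k ^ 2, by linear_combination h⟩
      exact hpZ.dvd_of_dvd_pow this
    choose! s' hs' using hdiv
    have hN' : ∀ k < p, (p : ℤ) * s' k ^ 2 + M * t k ^ 2 = n' := by
      intro k hk
      have h := hN k hk
      rw [hn', hs' k hk] at h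
      have : (p : ℤ) * ((p : ℤ) * s' k ^ 2 + M * t k ^ 2) = p * n' := by linear_combination h
      exact mul_left_cancel₀ hp0 this
    have hssum : ∑ k ∈ Finset.range p, s' k = 0 := by
      have : (p : ℤ) * ∑ k ∈ Finset.range p, s' k = 0 := by
        rw [Finset.mul_sum, ← hs]
        exact Finset.sum_congr rfl (fun k hk => (hs' k (Finset.mem_range.mp hk)).symm)
      exact (mul_eq_zero.mp this).resolve_left hp0
    by_cases hpn' : (p : ℤ) ∣ n'
    · obtain ⟨n'', hn''⟩ := hpn'
      have hdivt : ∀ k < p, (p : ℤ) ∣ t k := by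
        intro k hk
        have h := hN' k hk
        rw [hn''] at h
        have : (p : ℤ) ∣ M * t k ^ 2 := ⟨n'' - s' k ^ 2, by linear_combination h⟩
        rcases hpZ.dvd_or_dvd this with h1 | h1
        · exact absurd (by exact_mod_cast h1) hpM
        · exact hpZ.dvd_of_dvd_pow h1
      choose! t' ht' using hdivt
      have hN'' : ∀ k < p, s' k ^ 2 + (p * M : ℤ) * t' k ^ 2 = n'' := by
        intro k hk
        have h := hN' k hk
        rw [hn'', ht' k hk] at h
        have : (p : ℤ) * (s' k ^ 2 + (p * M : ℤ) * t' k ^ 2) = p * n'' := by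
          linear_combination h
        exact mul_left_cancel₀ hp0 this
      have htsum : ∑ k ∈ Finset.range p, t' k = 0 := by
        have : (p : ℤ) * ∑ k ∈ Finset.range p, t' k = 0 := by
          rw [Finset.mul_sum, ← ht]
          exact Finset.sum_congr rfl (fun k hk => (ht' k (Finset.mem_range.mp hk)).symm)
        exact (mul_eq_zero.mp this).resolve_left hp0
      have hnn : (n : ℤ) = p * p * n'' := by rw [hn', hn'']; ring
      have hn''pos : 0 < n'' := by
        have h1 : (0 : ℤ) < n := by exact_mod_cast hn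
        rw [hnn] at h1
        have h2 : (0 : ℤ) < p * p := by positivity
        exact (mul_pos_iff_of_pos_left h2).mp h1
      obtain ⟨q, hq⟩ := Int.eq_ofNat_of_zero_le hn''pos.le
      have hlt : q < n := by
        have h2 : (2 : ℤ) ≤ p := by exact_mod_cast hp.two_le
        have : (q : ℤ) < n := by
          rw [hnn, hq]
          rw [hq] at hn''pos
          have h4 : (4 : ℤ) ≤ p * p := by nlinarith
          nlinarith
        exact_mod_cast this
      have hqpos : 0 < q := by
        rw [hq] at hn''pos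
        exact_mod_cast hn''pos
      intro ⟨h1, h2⟩
      refine ih q hlt s' t' hqpos (fun k hk => by rw [hN'' k hk, hq]) hssum htsum i j hij hj
        ⟨?_, ?_⟩
      · have : (p : ℤ) * ∑ k ∈ Finset.Ico i j, s' k = 0 := by
          rw [Finset.mul_sum, ← h1]
          exact Finset.sum_congr rfl (fun k hk => (hs' k (by
            have := Finset.mem_Ico.mp hk; omega)).symm)
        exact (mul_eq_zero.mp this).resolve_left hp0
      · have : (p : ℤ) * ∑ k ∈ Finset.Ico i j, t' k = 0 := by
          rw [Finset.mul_sum, ← h2]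
          exact Finset.sum_congr rfl (fun k hk => (ht' k (by
            have := Finset.mem_Ico.mp hk; omega)).symm)
        exact (mul_eq_zero.mp this).resolve_left hp0
    · intro ⟨_, h2⟩
      have hMne : ((M : ℕ) : ZMod p) ≠ 0 := by
        intro h
        exact hpM ((ZMod.natCast_eq_zero_iff _ _).mp h)
      have hn'ne : ((n' : ℤ) : ZMod p) ≠ 0 := by
        intro h
        exact hpn' ((ZMod.intCast_zmod_eq_zero_iff_dvd _ _).mp h)
      refine block_ne_zero hp2 t (((n' : ℤ) : ZMod p) / (M : ZMod p)) (div_ne_zero hn'ne hMne)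
        ?_ ht i j hij hj h2
      intro k hk
      have h := congrArg (fun z : ℤ => (z : ZMod p)) (hN' k hk)
      push_cast at h
      simp only [CharP.cast_eq_zero, zero_mul, zero_add] at h
      rw [eq_div_iff hMne, ← h]
      ring
  · intro ⟨h1, _⟩
    have hnne : ((n : ℤ) : ZMod p) ≠ 0 := by
      intro h
      exact hpn ((ZMod.intCast_zmod_eq_zero_iff_dvd _ _).mp h)
    refine block_ne_zero hp2 s ((n : ℤ) : ZMod p) hnne ?_ hs i j hij hj h1
    intro k hk
    have h := congrArg (fun z : ℤ => (z : ZMod p)) (hN k hk)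
    push_cast at h
    simp only [CharP.cast_eq_zero, zero_mul, add_zero] at h
    rw [h]
    simp

end Pool.Agent.Lib.MP_11675a_co
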