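import Mathlib
import Pool.Agent.Lib.MP_11675a_co.Chain
import Pool.Agent.Lib.MP_11675a_co.Polygon

set_option autoImplicit false

namespace Pool.Agent.Lib.MP_11675a_co

/-- The rectangular lattice `Λ(m)` generated by `(1,0)` and `(0,√m)` in the Euclidean plane. -/
def Lat (m : ℕ) : Set (EuclideanSpace ℝ (Fin 2)) :=
  {x | ∃ a b : ℤ, x 0 = (a : ℝ) ∧ x 1 = (b : ℝ) * Real.sqrt m}

/-- `Λ(m)` contains an equilateral `n`-gon: a closed polygon with `n` pairwise distinct vertices
`v 0, v 1, …, v (n-1)` (indexed cyclically), all in `Λ(m)`, whose `n` sides all have the same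
positive length. -/
def HasEquilateralPolygon (m n : ℕ) : Prop :=
  ∃ v : ZMod n → EuclideanSpace ℝ (Fin 2), Function.Injective v ∧ (∀ i, v i ∈ Lat m) ∧
    ∃ L : ℝ, 0 < L ∧ ∀ i, dist (v i) (v (i + 1)) = L

lemma of_steps (m n : ℕ) (hm : 0 < m) (hn : 0 < n) (s t : ℕ → ℤ) (N : ℤ)
    (hN : 0 < N) (hnorm : ∀ i < n, s i ^ 2 + m * t i ^ 2 = N)
    (hs : ∑ i ∈ Finset.range n, s i = 0) (ht : ∑ i ∈ Finset.range n, t i = 0)
    (hdist : ∀ i j, i < j → j < n →
      ¬ (∑ k ∈ Finset.Ico i j, s k = 0 ∧ ∑ k ∈ Finset.Ico i j, t k = 0)) :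
    HasEquilateralPolygon m n := by
  have : NeZero n := ⟨hn.ne'⟩
  have hsq : Real.sqrt m ≠ 0 := (Real.sqrt_pos.mpr (by exact_mod_cast hm)).ne'
  let S : ℕ → ℤ := fun i => ∑ k ∈ Finset.range i, s k
  let T : ℕ → ℤ := fun i => ∑ k ∈ Finset.range i, t k
  let v : ZMod n → EuclideanSpace ℝ (Fin 2) := fun i =>
    !₂[(S i.val : ℝ), (T i.val : ℝ) * Real.sqrt m]
  refine ⟨v, ?_, ?_, Real.sqrt N, Real.sqrt_pos.mpr (by exact_mod_cast hN), ?_⟩
  · -- injective
    have key : ∀ i j : ZMod n, i.val < j.val → v i ≠ v j := by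
      intro i j hij h
      have h0 := congrFun (congrArg (fun x : EuclideanSpace ℝ (Fin 2) => (x : Fin 2 → ℝ)) h) 0
      have h0' := congrFun (congrArg (fun x : EuclideanSpace ℝ (Fin 2) => (x : Fin 2 → ℝ)) h) 1
      simp only [v, PiLp.toLp_apply, Matrix.cons_val_zero] at h0
      simp only [v, PiLp.toLp_apply, Matrix.cons_val_one] at h0'
      have h1 : S i.val = S j.val := by exact_mod_cast h0
      have h1' : T i.val = T j.val := by exact_mod_cast mul_right_cancel₀ hsq h0'
      have h2 : ∑ k ∈ Finset.Ico i.val j.val, s k = S j.val - S i.val := by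
        rw [Finset.sum_Ico_eq_sub _ hij.le]
      have h2' : ∑ k ∈ Finset.Ico i.val j.val, t k = T j.val - T i.val := by
        rw [Finset.sum_Ico_eq_sub _ hij.le]
      exact hdist i.val j.val hij (ZMod.val_lt j)
        ⟨by rw [h2, h1, sub_self], by rw [h2', h1', sub_self]⟩
    intro i j h
    by_contra hne
    rcases lt_trichotomy i.val j.val with hlt | heq | hgt
    · exact key i j hlt h
    · exact hne (ZMod.val_injective n heq)
    · exact key j i hgt h.symm
  · intro i
    exact ⟨S i.val, T i.val, by simp [v], by simp [v]⟩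
  · intro i
    have hi : i.val < n := ZMod.val_lt i
    have hval : (i + 1).val = (i.val + 1) % n := by
      have : i + 1 = ((i.val + 1 : ℕ) : ZMod n) := by
        push_cast
        rw [ZMod.natCast_zmod_val]
      rw [this, ZMod.val_natCast]
    have hS : S (i + 1).val = S i.val + s i.val := by
      rw [hval]
      rcases Nat.lt_or_ge (i.val + 1) n with h | h
      · rw [Nat.mod_eq_of_lt h]
        exact Finset.sum_range_succ _ _
      · have e : i.val + 1 = n := by omega
        have : S (i.val + 1) = S i.val + s i.val := Finset.sum_range_succ _ _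
        rw [← this, e, Nat.mod_self]
        simp [S, hs]
    have hT : T (i + 1).val = T i.val + t i.val := by
      rw [hval]
      rcases Nat.lt_or_ge (i.val + 1) n with h | h
      · rw [Nat.mod_eq_of_lt h]
        exact Finset.sum_range_succ _ _
      · have e : i.val + 1 = n := by omega
        have : T (i.val + 1) = T i.val + t i.val := Finset.sum_range_succ _ _
        rw [← this, e, Nat.mod_self]
        simp [T, ht]
    rw [EuclideanSpace.dist_eq]
    congr 1
    simp only [v, Fin.sum_univ_two, PiLp.toLp_apply, Matrix.cons_val_zero, Matrix.cons_val_one,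
      Real.dist_eq, sq_abs, hS, hT]
    have hm : Real.sqrt m ^ 2 = m := Real.sq_sqrt (by positivity)
    have := hnorm i.val hi
    have h2 : ((s i.val : ℝ)) ^ 2 + m * (t i.val : ℝ) ^ 2 = N := by exact_mod_cast this
    push_cast
    rw [← h2]
    linear_combination ((t i.val : ℝ)) ^ 2 * hm

lemma sum_range_getD (l : List (ℚ × ℚ)) :
    ∑ i ∈ Finset.range l.length, l.getD i 0 = l.sum := by
  induction l with
  | nil => simp
  | cons a t ih =>
    rw [List.length_cons, Finset.sum_range_succ', List.sum_cons]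
    simp only [List.getD_cons_succ, List.getD_cons_zero]
    rw [ih, add_comm]

lemma common_den (N : Multiset (ℚ × ℚ)) :
    ∃ D : ℕ, 0 < D ∧ ∀ z ∈ N, ∃ a b : ℤ, (D : ℚ) * z.1 = a ∧ (D : ℚ) * z.2 = b := by
  induction N using Multiset.induction_on with
  | empty => exact ⟨1, one_pos, by simp⟩
  | cons z N ih =>
    obtain ⟨D, hD, h⟩ := ih
    refine ⟨D * (z.1.den * z.2.den), by
      have := z.1.den_pos
      have := z.2.den_pos
      positivity, ?_⟩
    have h1 : (z.1.den : ℚ) * z.1 = z.1.num := by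
      have := Rat.mul_den_eq_num z.1
      linarith
    have h2 : (z.2.den : ℚ) * z.2 = z.2.num := by
      have := Rat.mul_den_eq_num z.2
      linarith
    intro y hy
    rw [Multiset.mem_cons] at hy
    rcases hy with rfl | hy
    · refine ⟨D * y.2.den * y.1.num, D * y.1.den * y.2.num, ?_, ?_⟩
      · push_cast
        rw [← h1]; ring
      · push_cast
        rw [← h2]; ring
    · obtain ⟨a, b, ha, hb⟩ := h y hy
      refine ⟨z.1.den * z.2.den * a, z.1.den * z.2.den * b, ?_, ?_⟩
      · push_cast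
        rw [← ha]; ring
      · push_cast
        rw [← hb]; ring

theorem polygon_of_multiset {p M : ℕ} (hp : p.Prime) (hp2 : p ≠ 2) (hpM : ¬ p ∣ M)
    (N : Multiset (ℚ × ℚ)) (hcard : (Multiset.card N : ℤ) = p) (hsum : N.sum = 0)
    (huni : ∀ z ∈ N, Uni ((p * M : ℤ) : ℚ) z) : HasEquilateralPolygon (p * M) p := by
  have hM : 0 < M := by
    rcases Nat.eq_zero_or_pos M with h | h
    · exact absurd (h ▸ dvd_zero p) hpM
    · exact h
  have hp0 : 0 < p := hp.pos
  obtain ⟨D, hD, hden⟩ := common_den N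
  set l := N.toList with hl
  have hlen : l.length = p := by
    rw [hl, Multiset.length_toList]
    exact_mod_cast hcard
  have hf : ∀ i < p, l.getD i 0 ∈ N := by
    intro i hi
    rw [List.getD_eq_getElem _ _ (by omega)]
    rw [← Multiset.mem_toList]
    exact List.getElem_mem _
  have hab : ∀ i < p, ∃ a b : ℤ, (D : ℚ) * (l.getD i 0).1 = a ∧ (D : ℚ) * (l.getD i 0).2 = b :=
    fun i hi => hden _ (hf i hi)
  choose! s t hs ht using hab
  have hDQ : (D : ℚ) ≠ 0 := by exact_mod_cast hD.ne'
  have hsum0 : ∑ i ∈ Finset.range p, l.getD i 0 = 0 := by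
    rw [← hlen, sum_range_getD, hl, Multiset.sum_toList, hsum]
  have hssum : ∑ i ∈ Finset.range p, s i = 0 := by
    have : (∑ i ∈ Finset.range p, (s i : ℚ)) = 0 := by
      have h1 := congrArg Prod.fst hsum0
      rw [Prod.fst_sum] at h1
      rw [Finset.sum_congr rfl (fun i hi => (hs i (Finset.mem_range.mp hi)).symm),
        ← Finset.mul_sum, h1]
      simp
    exact_mod_cast this
  have htsum : ∑ i ∈ Finset.range p, t i = 0 := by
    have : (∑ i ∈ Finset.range p, (t i : ℚ)) = 0 := by
      have h1 := congrArg Prod.snd hsum0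
      rw [Prod.snd_sum] at h1
      rw [Finset.sum_congr rfl (fun i hi => (ht i (Finset.mem_range.mp hi)).symm),
        ← Finset.mul_sum, h1]
      simp
    exact_mod_cast this
  have hnorm : ∀ i < p, s i ^ 2 + (p * M : ℤ) * t i ^ 2 = ((D ^ 2 : ℕ) : ℤ) := by
    intro i hi
    have h1 := huni _ (hf i hi)
    simp only [Uni] at h1
    have h2 : (s i : ℚ) ^ 2 + ((p * M : ℤ) : ℚ) * (t i : ℚ) ^ 2 = (D : ℚ) ^ 2 := by
      rw [← hs i hi, ← ht i hi]
      linear_combination (D : ℚ) ^ 2 * h1
    push_cast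
    push_cast at h2
    exact_mod_cast h2
  refine of_steps (p * M) p (by positivity) hp0 s t (((D ^ 2 : ℕ) : ℤ))
    (by exact_mod_cast (by positivity : 0 < D ^ 2)) ?_ hssum htsum ?_
  · intro i hi
    have := hnorm i hi
    push_cast
    push_cast at this
    exact this
  · exact steps_distinct hp hp2 hpM (D ^ 2) s t (by positivity) hnorm hssum htsum

end Pool.Agent.Lib.MP_11675a_co
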