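import Mathlib

set_option autoImplicit false

namespace Pool.Agent.Lib.MP_11675a_co

/-- admissible pairs of positive numbers -/
def Okn (z : ℕ × ℕ) : Prop := 0 < z.2 ∧ z.2 ≤ z.1 ∧ z.1 % 2 = 1 ∧ z.1 % 4 = z.2 % 4

/-- the product of a list of pairs -/
def PP (l : List (ℕ × ℕ)) : ℕ := (l.map (fun z => z.1)).prod * (l.map (fun z => z.2)).prod

/-- `n` can be turned into `1` or `3` times a square at cost `r`. -/
def Red (K n r : ℕ) : Prop := ∃ (l : List (ℕ × ℕ)) (e w s : ℕ), (e = 1 ∨ e = 3) ∧ 0 < s ∧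
  (∀ z ∈ l, Okn z ∧ z.1 + z.2 ≤ K) ∧ (l.map (fun z => z.1 - z.2)).sum ≤ r ∧
  n * PP l * s ^ 2 = e * w ^ 2

lemma Red.mono {K n r r' : ℕ} (h : Red K n r) (hr : r ≤ r') : Red K n r' := by
  obtain ⟨l, e, w, s, h1, h2, h3, h4, h5⟩ := h
  exact ⟨l, e, w, s, h1, h2, h3, h4.trans hr, h5⟩

lemma PP_append (l l' : List (ℕ × ℕ)) : PP (l ++ l') = PP l * PP l' := by
  simp only [PP, List.map_append, List.prod_append]
  ring

lemma PP_cons (z : ℕ × ℕ) (l : List (ℕ × ℕ)) : PP (z :: l) = z.1 * z.2 * PP l := by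
  simp only [PP, List.map_cons, List.prod_cons]
  ring

lemma Red.mul {K n n' r r' : ℕ} (h : Red K n r) (h' : Red K n' r') : Red K (n * n') (r + r') := by
  obtain ⟨l, e, w, s, h1, h2, h3, h4, h5⟩ := h
  obtain ⟨l', e', w', s', h1', h2', h3', h4', h5'⟩ := h'
  have key : n * n' * PP (l ++ l') * (s * s') ^ 2 = (e * e') * (w * w') ^ 2 := by
    rw [PP_append]
    calc _ = (n * PP l * s ^ 2) * (n' * PP l' * s' ^ 2) := by ring
      _ = _ := by rw [h5, h5']; ring
  have hl : ∀ z ∈ l ++ l', Okn z ∧ z.1 + z.2 ≤ K := by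
    intro z hz
    rcases List.mem_append.mp hz with hz | hz
    · exact h3 z hz
    · exact h3' z hz
  have hsum : ((l ++ l').map (fun z => z.1 - z.2)).sum ≤ r + r' := by
    rw [List.map_append, List.sum_append]
    exact Nat.add_le_add h4 h4'
  rcases h1 with rfl | rfl <;> rcases h1' with rfl | rfl
  · exact ⟨l ++ l', 1, w * w', s * s', Or.inl rfl, by positivity, hl, hsum, by rw [key]⟩
  · exact ⟨l ++ l', 3, w * w', s * s', Or.inr rfl, by positivity, hl, hsum, by rw [key]⟩
  · exact ⟨l ++ l', 3, w * w', s * s', Or.inr rfl, by positivity, hl, hsum, by rw [key]⟩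
  · exact ⟨l ++ l', 1, 3 * (w * w'), s * s', Or.inl rfl, by positivity, hl, hsum, by
      rw [key]; ring⟩

lemma Red.pair {K n N r a b s t : ℕ} (hab : Okn (a, b)) (hK : a + b ≤ K) (_hs : 0 < s)
    (ht : 0 < t) (hN : N * s ^ 2 = n * (a * b) * t ^ 2) (h : Red K N r) :
    Red K n (a - b + r) := by
  obtain ⟨l, e, w, s', h1, h2, h3, h4, h5⟩ := h
  refine ⟨(a, b) :: l, e, w * s, t * s', h1, by positivity, ?_, ?_, ?_⟩
  · intro z hz
    rw [List.mem_cons] at hz
    rcases hz with rfl | hz
    · exact ⟨hab, hK⟩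
    · exact h3 z hz
  · rw [List.map_cons, List.sum_cons]
    simp only
    omega
  · rw [PP_cons]
    simp only
    calc _ = (n * (a * b) * t ^ 2) * (PP l * s' ^ 2) := by ring
      _ = (N * s ^ 2) * (PP l * s' ^ 2) := by rw [hN]
      _ = (N * PP l * s' ^ 2) * s ^ 2 := by ring
      _ = _ := by rw [h5]; ring

lemma Red.of_mul_sq {K n N r s t : ℕ} (_hs : 0 < s) (ht : 0 < t) (hN : N * s ^ 2 = n * t ^ 2)
    (h : Red K N r) : Red K n r := by
  obtain ⟨l, e, w, s', h1, h2, h3, h4, h5⟩ := h
  refine ⟨l, e, w * s, t * s', h1, by positivity, h3, h4, ?_⟩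
  calc _ = (n * t ^ 2) * (PP l * s' ^ 2) := by ring
      _ = (N * s ^ 2) * (PP l * s' ^ 2) := by rw [hN]
      _ = (N * PP l * s' ^ 2) * s ^ 2 := by ring
      _ = _ := by rw [h5]; ring

lemma Red.sq (K u : ℕ) : Red K (u ^ 2) 0 :=
  ⟨[], 1, u, 1, Or.inl rfl, one_pos, by simp, by simp, by simp [PP]⟩

lemma Red.three_sq (K u : ℕ) : Red K (3 * u ^ 2) 0 :=
  ⟨[], 3, u, 1, Or.inr rfl, one_pos, by simp, by simp, by simp [PP]⟩

/-- pair with a smaller number of the same class. -/
lemma Red.down {K n b r : ℕ} (hn : n % 2 = 1) (hb : 0 < b) (hbn : b ≤ n) (h4 : n % 4 = b % 4)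
    (hK : n + b ≤ K) (h : Red K b r) : Red K n (n - b + r) := by
  refine Red.pair (a := n) (b := b) (s := n) (t := 1) (N := b) ⟨hb, hbn, hn, h4⟩ hK (by omega)
    one_pos (by ring) h

lemma exists_odd_sqrt (n : ℕ) (hn : 0 < n) : ∃ u, u % 2 = 1 ∧ u ^ 2 ≤ n ∧ n < (u + 2) ^ 2 := by
  have h1 : Nat.sqrt n * Nat.sqrt n ≤ n := Nat.sqrt_le n
  have h2 : n < (Nat.sqrt n + 1) * (Nat.sqrt n + 1) := Nat.lt_succ_sqrt n
  rcases Nat.mod_two_eq_zero_or_one (Nat.sqrt n) with h | h
  · have h3 : Nat.sqrt n ≠ 0 := by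
      intro h0
      rw [h0] at h2
      omega
    obtain ⟨v, hv⟩ : ∃ v, Nat.sqrt n = v + 1 := ⟨Nat.sqrt n - 1, by omega⟩
    rw [hv] at h1 h2 h
    exact ⟨v, by omega, by nlinarith, by nlinarith⟩
  · exact ⟨Nat.sqrt n, h, by nlinarith, by nlinarith⟩

lemma odd_sq_mod (u : ℕ) (hu : u % 2 = 1) : u ^ 2 % 8 = 1 := by
  have h8 : u % 8 = 1 ∨ u % 8 = 3 ∨ u % 8 = 5 ∨ u % 8 = 7 := by omega
  rcases h8 with h | h | h | h <;> rw [Nat.pow_mod, h]

/-- cost about `7√n` -/
lemma red_sqrt {K n x : ℕ} (hn : n % 2 = 1) (hx : n ≤ x ^ 2) (hK : 2 * n ≤ K) :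
    Red K n (7 * x + 8) := by
  have h4 : n % 4 = 1 ∨ n % 4 = 3 := by omega
  rcases h4 with h4 | h4
  · obtain ⟨u, hu, hu1, hu2⟩ := exists_odd_sqrt n (by omega)
    have hsq := odd_sq_mod u hu
    have hux : u ≤ x := by
      by_contra hlt
      push Not at hlt
      nlinarith
    have hpos : 0 < u ^ 2 := by
      have : 0 < u := by omega
      positivity
    refine (Red.down (b := u ^ 2) hn hpos hu1 (by omega) (by omega) (Red.sq K u)).mono ?_
    have : (u + 2) ^ 2 = u ^ 2 + 4 * u + 4 := by ring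
    omega
  · obtain ⟨u, hu, hu1, hu2⟩ := exists_odd_sqrt (n / 3) (by omega)
    have hsq := odd_sq_mod u hu
    have h3u : 3 * u ^ 2 ≤ n := by omega
    have hux : 12 * u ≤ 7 * x := by
      by_contra hlt
      push Not at hlt
      nlinarith
    have hpos : 0 < u ^ 2 := by
      have : 0 < u := by omega
      positivity
    refine (Red.down (b := 3 * u ^ 2) hn (by omega) h3u (by omega) (by omega)
      (Red.three_sq K u)).mono ?_
    have : (u + 2) ^ 2 = u ^ 2 + 4 * u + 4 := by ring
    omega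

/-- cost about `22 n^(1/4)` -/
lemma red_quartic {K n t : ℕ} (hn : n % 2 = 1) (ht : n ≤ t ^ 4) (hK : 2 * n ≤ K) :
    Red K n (22 * t + 41) := by
  have ht1 : 1 ≤ t := by
    rcases Nat.eq_zero_or_pos t with h | h
    · subst h
      simp at ht
      omega
    · exact h
  by_cases hsmall : n < 64
  · rcases Nat.lt_or_ge t 2 with h | h
    · have : t = 1 := by omega
      subst this
      have : n = 1 := by omega
      subst this
      exact (Red.sq K 1).mono (by norm_num)
    · exact (red_sqrt (x := 8) hn (by omega) hK).mono (by omega)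
  · push Not at hsmall
    have hs1 : Nat.sqrt n * Nat.sqrt n ≤ n := Nat.sqrt_le n
    have hs2 : n < (Nat.sqrt n + 1) * (Nat.sqrt n + 1) := Nat.lt_succ_sqrt n
    set s := Nat.sqrt n with hs
    have hs8 : 8 ≤ s := by
      by_contra hlt
      push Not at hlt
      have : s + 1 ≤ 8 := by omega
      nlinarith
    have hst : s ≤ t ^ 2 := by
      by_contra hlt
      push Not at hlt
      nlinarith [sq_nonneg (t ^ 2)]
    -- choose k
    obtain ⟨k, hk1, hk2, hk4⟩ : ∃ k, s + 1 ≤ k ∧ k ≤ s + 2 ∧
        ((n % 4 = 1 ∧ k % 2 = 1) ∨ (n % 4 = 3 ∧ k % 2 = 0)) := by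
      have h4 : n % 4 = 1 ∨ n % 4 = 3 := by omega
      rcases h4 with h4 | h4 <;> rcases Nat.mod_two_eq_zero_or_one s with h | h
      · exact ⟨s + 1, by omega, by omega, Or.inl ⟨h4, by omega⟩⟩
      · exact ⟨s + 2, by omega, by omega, Or.inl ⟨h4, by omega⟩⟩
      · exact ⟨s + 2, by omega, by omega, Or.inr ⟨h4, by omega⟩⟩
      · exact ⟨s + 1, by omega, by omega, Or.inr ⟨h4, by omega⟩⟩
    have hkn : n < k ^ 2 := by
      have := Nat.pow_le_pow_left hk1 2
      have e : (s + 1) ^ 2 = (s + 1) * (s + 1) := by ring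
      omega
    have hkn2 : k ^ 2 ≤ n + (4 * s + 4) := by
      have := Nat.pow_le_pow_left hk2 2
      have e : (s + 2) ^ 2 = s * s + 4 * s + 4 := by ring
      omega
    obtain ⟨D, hD⟩ : ∃ D, k ^ 2 = n + D := ⟨k ^ 2 - n, by omega⟩
    have hD1 : D ≤ 4 * s + 4 := by omega
    have hr1 : Nat.sqrt D * Nat.sqrt D ≤ D := Nat.sqrt_le D
    have hr2 : D < (Nat.sqrt D + 1) * (Nat.sqrt D + 1) := Nat.lt_succ_sqrt D
    set r := Nat.sqrt D with hr
    obtain ⟨a, ha1, ha2, ha4⟩ : ∃ a, r + 1 ≤ a ∧ a ≤ r + 2 ∧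
        ((n % 4 = 1 ∧ a % 2 = 0) ∨ (n % 4 = 3 ∧ a % 2 = 1)) := by
      have h4 : n % 4 = 1 ∨ n % 4 = 3 := by omega
      rcases h4 with h4 | h4 <;> rcases Nat.mod_two_eq_zero_or_one r with h | h
      · exact ⟨r + 2, by omega, by omega, Or.inl ⟨h4, by omega⟩⟩
      · exact ⟨r + 1, by omega, by omega, Or.inl ⟨h4, by omega⟩⟩
      · exact ⟨r + 1, by omega, by omega, Or.inr ⟨h4, by omega⟩⟩
      · exact ⟨r + 2, by omega, by omega, Or.inr ⟨h4, by omega⟩⟩
    have haD : D < a ^ 2 := by
      have := Nat.pow_le_pow_left ha1 2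
      have e : (r + 1) ^ 2 = (r + 1) * (r + 1) := by ring
      omega
    have haD2 : a ^ 2 ≤ D + (4 * r + 4) := by
      have := Nat.pow_le_pow_left ha2 2
      have e : (r + 2) ^ 2 = r * r + 4 * r + 4 := by ring
      omega
    have hr2t : r ≤ 2 * t := by
      by_contra hlt
      push Not at hlt
      have h1 : (2 * t + 1) * (2 * t + 1) ≤ r * r := Nat.mul_self_le_mul_self (by omega)
      have h2 : (2 * t + 1) * (2 * t + 1) = 4 * t ^ 2 + 4 * t + 1 := by ring
      omega
    -- a < k
    have hak : a < k := by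
      -- r ^ 2 ≤ 4 s + 4, a ≤ r + 2, k ≥ s + 1
      by_contra hge
      push Not at hge
      have h1 : s ≤ r + 1 := by omega
      have h2 : r * r ≤ 4 * s + 4 := by omega
      have h3 : 7 ≤ r := by omega
      have h4 : r * r ≤ 4 * r + 8 := by omega
      have h5 : 7 * r ≤ r * r := Nat.mul_le_mul_right r h3
      omega
    -- the factors
    obtain ⟨x, hx⟩ : ∃ x, k = a + x := ⟨k - a, by omega⟩
    have hx0 : 0 < x := by omega
    have hxodd : x % 2 = 1 := by omega
    have hyodd : (k + a) % 2 = 1 := by omega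
    have hb : x * (k + a) + a ^ 2 = k ^ 2 := by
      rw [hx]; ring
    have hbn : x * (k + a) ≤ n := by omega
    have hbpos : 0 < x * (k + a) := Nat.mul_pos hx0 (by omega)
    -- mod 4
    have hmod : n % 4 = (x * (k + a)) % 4 := by
      rcases ha4 with ⟨h4, ha⟩ | ⟨h4, ha⟩
      · obtain ⟨a', ha'⟩ : ∃ a', a = 2 * a' := ⟨a / 2, by omega⟩
        have hk' : k % 2 = 1 := by omega
        have h5 := odd_sq_mod k hk'
        have h6 : a ^ 2 = 4 * (a' ^ 2) := by rw [ha']; ring
        omega
      · have hk' : k % 2 = 0 := by omega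
        obtain ⟨k', hk'⟩ : ∃ k', k = 2 * k' := ⟨k / 2, by omega⟩
        have h5 := odd_sq_mod a ha
        have h6 : k ^ 2 = 4 * (k' ^ 2) := by rw [hk']; ring
        omega
    have hxle : x ≤ k := by omega
    have hkt : k ≤ t ^ 2 + 2 := by omega
    have h8s : 8 * s ≤ s * s := Nat.mul_le_mul_right s hs8
    have hR1 : Red K x (7 * (t + 1) + 8) := by
      apply red_sqrt hxodd
      · have e : (t + 1) ^ 2 = t ^ 2 + 2 * t + 1 := by ring
        omega
      · omega
    have hka2 : k + a ≤ n := by omega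
    have hR2 : Red K (k + a) (7 * (t + 2) + 8) := by
      apply red_sqrt hyodd
      · have e : (t + 2) ^ 2 = t ^ 2 + 4 * t + 4 := by ring
        omega
      · omega
    have hR := hR1.mul hR2
    refine (Red.down hn hbpos hbn hmod (by omega) hR).mono ?_
    omega

/-- cost `4 π(y)` if all prime factors are at most `y`. -/
lemma red_pi {K : ℕ} : ∀ (y n : ℕ), n % 2 = 1 → (∀ q : ℕ, q.Prime → q ∣ n → q ≤ y) →
    2 * y + 4 ≤ K → Red K n (4 * Nat.primeCounting y) := by
  intro y
  induction y using Nat.strong_induction_on with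
  | _ y ih =>
  intro n hn hq hK
  by_cases hy : y < 5
  · have hn3 : ∀ {d : ℕ}, d.Prime → d ∣ n → d = 3 := by
      intro d hd hdn
      have h1 := hq d hd hdn
      have h2 : d ≠ 2 := by
        rintro rfl
        omega
      have h3 : d ≠ 4 := by
        rintro rfl
        exact absurd hd (by norm_num)
      have h4 := hd.two_le
      omega
    have := Nat.eq_prime_pow_of_unique_prime_dvd (by omega) (fun {d} hd hdn => hn3 hd hdn)
    rw [this]
    set i := n.primeFactorsList.length
    rcases Nat.mod_two_eq_zero_or_one i with h | h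
    · obtain ⟨j, hj⟩ : ∃ j, i = j * 2 := ⟨i / 2, by omega⟩
      rw [hj, pow_mul]
      exact (Red.sq K _).mono (Nat.zero_le _)
    · obtain ⟨j, hj⟩ : ∃ j, i = j * 2 + 1 := ⟨i / 2, by omega⟩
      rw [hj, pow_succ, pow_mul, mul_comm]
      exact (Red.three_sq K _).mono (Nat.zero_le _)
  · push Not at hy
    by_cases hyp : y.Prime ∧ y ∣ n
    · obtain ⟨hyp, hyn⟩ := hyp
      obtain ⟨i, n', hn', hni⟩ := Nat.exists_eq_pow_mul_and_not_dvd (n := n) (by omega) y
        (by omega)
      have hyodd : y % 2 = 1 := by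
        rcases hyp.eq_two_or_odd with h | h
        · omega
        · exact h
      have hn'odd : n' % 2 = 1 := by
        rcases Nat.mod_two_eq_zero_or_one n' with h | h
        · exfalso
          have : n % 2 = 0 := by rw [hni, Nat.mul_mod, h]; simp
          omega
        · exact h
      have hn'q : ∀ q : ℕ, q.Prime → q ∣ n' → q ≤ y - 1 := by
        intro q hqp hqn
        have h1 := hq q hqp (by rw [hni]; exact hqn.mul_left _)
        have h2 : q ≠ y := by
          rintro rfl
          exact hn' hqn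
        omega
      have hpi : Nat.primeCounting y = Nat.primeCounting (y - 1) + 1 := by
        obtain ⟨z, rfl⟩ : ∃ z, y = z + 1 := ⟨y - 1, by omega⟩
        rw [Nat.primeCounting, Nat.primeCounting', Nat.count_succ, if_pos hyp]
        simp [Nat.primeCounting, Nat.primeCounting']
      rcases Nat.mod_two_eq_zero_or_one i with h | h
      · obtain ⟨j, hj⟩ : ∃ j, i = j * 2 := ⟨i / 2, by omega⟩
        have hR := ih (y - 1) (by omega) n' hn'odd hn'q (by omega)
        refine (Red.of_mul_sq (N := n') (s := y ^ j) (t := 1) (by positivity) one_pos ?_ hR).mono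
          (by omega)
        rw [hni, hj, pow_mul]; ring
      · obtain ⟨j, hj⟩ : ∃ j, i = j * 2 + 1 := ⟨i / 2, by omega⟩
        by_cases h3 : y % 3 = 1
        · -- partner y - 4
          have hb3 : (n' * (y - 4)) % 2 = 1 := by
            rw [Nat.mul_mod, hn'odd]
            have : (y - 4) % 2 = 1 := by omega
            rw [this]
          have hR := ih (y - 1) (by omega) (n' * (y - 4)) hb3 (by
            intro q hqp hqn
            rcases hqp.dvd_mul.mp hqn with h5 | h5
            · exact hn'q q hqp h5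
            · have := Nat.le_of_dvd (by omega) h5
              omega) (by omega)
          refine (Red.pair (a := y) (b := y - 4) (s := y ^ (j + 1)) (t := 1) (n := n)
            (N := n' * (y - 4)) ⟨by simp only; omega, by simp only; omega, by simp only; omega,
              by simp only; omega⟩ (by omega) (by positivity) one_pos ?_ hR).mono (by omega)
          rw [hni, hj]; ring
        · have h3' : y % 3 = 2 := by
            have : y % 3 ≠ 0 := by
              intro h0
              have h5 : 3 ∣ y := Nat.dvd_of_mod_eq_zero h0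
              have := (Nat.prime_dvd_prime_iff_eq Nat.prime_three hyp).mp h5
              omega
            omega
          have hb3 : (n' * (y + 4)) % 2 = 1 := by
            rw [Nat.mul_mod, hn'odd]
            have : (y + 4) % 2 = 1 := by omega
            rw [this]
          obtain ⟨z, hz⟩ : ∃ z, y + 4 = 3 * z := ⟨(y + 4) / 3, by omega⟩
          have hR := ih (y - 1) (by omega) (n' * (y + 4)) hb3 (by
            intro q hqp hqn
            rcases hqp.dvd_mul.mp hqn with h5 | h5
            · exact hn'q q hqp h5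
            · rw [hz] at h5
              rcases hqp.dvd_mul.mp h5 with h6 | h6
              · have := Nat.le_of_dvd (by norm_num) h6
                omega
              · have := Nat.le_of_dvd (by omega) h6
                omega) (by omega)
          refine (Red.pair (a := y + 4) (b := y) (s := y ^ (j + 1)) (t := 1) (n := n)
            (N := n' * (y + 4)) ⟨by simp only; omega, by simp only; omega, by simp only; omega,
              by simp only; omega⟩ (by omega) (by positivity) one_pos ?_ hR).mono (by omega)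
          rw [hni, hj]; ring
    · have hR := ih (y - 1) (by omega) n hn (by
        intro q hqp hqn
        have h1 := hq q hqp hqn
        have h2 : q ≠ y := by
          rintro rfl
          exact hyp ⟨hqp, hqn⟩
        omega) (by omega)
      refine hR.mono ?_
      have : Nat.primeCounting (y - 1) ≤ Nat.primeCounting y :=
        Nat.monotone_primeCounting (by omega)
      omega

end Pool.Agent.Lib.MP_11675a_co
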