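import Mathlib
import Pool.Agent.Lib.MP_11675a_co.Defs
import Pool.Agent.Lib.MP_11675a_co.Red

set_option autoImplicit false

namespace Pool.Agent.Lib.MP_11675a_co

lemma dvd_of_sq_dvd {e s w : ℕ} (he : e = 1 ∨ e = 3) (hs : 0 < s) (h : s ^ 2 ∣ e * w ^ 2) :
    s ∣ w := by
  rcases he with rfl | rfl
  · rw [one_mul] at h
    exact (Nat.pow_dvd_pow_iff two_ne_zero).mp h
  · have h1 : s ^ 2 ∣ (3 * w) ^ 2 := by
      have : (3 * w) ^ 2 = 3 * (3 * w ^ 2) := by ring
      rw [this]
      exact h.mul_left 3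
    have h2 : s ∣ 3 * w := (Nat.pow_dvd_pow_iff two_ne_zero).mp h1
    obtain ⟨j, hj⟩ := h2
    obtain ⟨k, hk⟩ := h
    have h3 : s ^ 2 * (3 * k) = s ^ 2 * j ^ 2 := by
      calc s ^ 2 * (3 * k) = 3 * (s ^ 2 * k) := by ring
        _ = 3 * (3 * w ^ 2) := by rw [hk]
        _ = (3 * w) ^ 2 := by ring
        _ = (s * j) ^ 2 := by rw [hj]
        _ = s ^ 2 * j ^ 2 := by ring
    have h4 : 3 * k = j ^ 2 := Nat.eq_of_mul_eq_mul_left (by positivity) h3
    have h5 : 3 ∣ j := Nat.prime_three.dvd_of_dvd_pow ⟨k, h4.symm⟩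
    obtain ⟨j', rfl⟩ := h5
    refine ⟨j', ?_⟩
    have : 3 * w = 3 * (s * j') := by rw [hj]; ring
    exact Nat.eq_of_mul_eq_mul_left (by norm_num) this

lemma PP_mod (l : List (ℕ × ℕ)) (h : ∀ z ∈ l, Okn z) : PP l % 4 = 1 := by
  induction l with
  | nil => simp [PP]
  | cons a t ih =>
    have h1 := ih (fun z hz => h z (by simp [hz]))
    obtain ⟨h2, h3, h4, h5⟩ := h a (by simp)
    rw [PP_cons, Nat.mul_mod, h1, Nat.mul_mod a.1 a.2, ← h5]
    have h6 : a.1 % 4 = 1 ∨ a.1 % 4 = 3 := by omega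
    rcases h6 with h6 | h6 <;> rw [h6]

/-- the final assembly. -/
theorem assemble {p M c rM rc : ℕ} (hp : p.Prime) (hcop : ¬ p ∣ M) (hsq : Squarefree M)
    (hm : (p * M) % 4 = 3) (hc4 : c % 4 = p % 4)
    (hM : Red (p + c) M rM) (hc : Red (p + c) c rc) (hcost : c + rM + rc + 4 ≤ p) :
    HasEquilateralPolygon (p * M) p := by
  have hM0 : 0 < M := by
    rcases Nat.eq_zero_or_pos M with h | h
    · rw [h] at hm
      simp at hm
    · exact h
  have hpodd : p % 2 = 1 := by
    rcases Nat.mod_two_eq_zero_or_one p with h | h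
    · exfalso
      have : (p * M) % 2 = 0 := by rw [Nat.mul_mod, h]; simp
      omega
    · exact h
  have hp2 : p ≠ 2 := by rintro rfl; omega
  have h3 : Red (p + c) 3 0 := by
    have := Red.three_sq (p + c) 1
    simpa using this
  have hT := (h3.mul hc).mul hM
  obtain ⟨l, e, w, s, he, hs, hl, hsum, hprod⟩ := hT
  have hdvd : s ^ 2 ∣ e * w ^ 2 := ⟨_, by rw [← hprod, mul_comm]⟩
  obtain ⟨w1, rfl⟩ := dvd_of_sq_dvd he hs hdvd
  have hprod1 : 3 * c * M * PP l = e * w1 ^ 2 := by
    have : s ^ 2 * (3 * c * M * PP l) = s ^ 2 * (e * w1 ^ 2) := by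
      calc _ = 3 * c * M * PP l * s ^ 2 := by ring
        _ = e * (s * w1) ^ 2 := hprod
        _ = _ := by ring
    exact Nat.eq_of_mul_eq_mul_left (by positivity) this
  have hPPmod := PP_mod l (fun z hz => (hl z hz).1)
  -- mod 4
  have hmod : (3 * c * M * PP l) % 4 = 1 := by
    have h1 : (3 * c * M) % 4 = 1 := by
      have h2 : (c * M) % 4 = 3 := by
        rw [Nat.mul_mod, hc4, ← Nat.mul_mod, hm]
      have h3 : 3 * c * M = 3 * (c * M) := by ring
      rw [h3, Nat.mul_mod, h2]
    rw [Nat.mul_mod, h1, hPPmod]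
  have he1 : e = 1 := by
    rcases he with he | he
    · exact he
    · exfalso
      rw [hprod1, he] at hmod
      have hw1 : w1 % 2 = 1 := by
        rcases Nat.mod_two_eq_zero_or_one w1 with h | h
        · exfalso
          have : (3 * w1 ^ 2) % 2 = 0 := by
            rw [Nat.mul_mod, Nat.pow_mod, h]
          omega
        · exact h
      have := odd_sq_mod w1 hw1
      omega
  rw [he1, one_mul] at hprod1
  have hMw : M ∣ w1 := by
    have : M ∣ w1 ^ 2 := ⟨3 * c * PP l, by rw [← hprod1]; ring⟩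
    exact (hsq.dvd_pow_iff_dvd two_ne_zero).mp this
  obtain ⟨w2, rfl⟩ := hMw
  have hprod2 : 3 * c * PP l = M * w2 ^ 2 := by
    have : M * (3 * c * PP l) = M * (M * w2 ^ 2) := by
      calc _ = 3 * c * M * PP l := by ring
        _ = (M * w2) ^ 2 := hprod1
        _ = _ := by ring
    exact Nat.eq_of_mul_eq_mul_left hM0 this
  -- the integer list
  let f : ℕ × ℕ → ℤ × ℤ := fun z => ((z.1 : ℤ), (z.2 : ℤ))
  let l' : List (ℤ × ℤ) := (3, -1) :: l.map f
  have hA : ((l.map f).map (fun y => y.1)).prod = (((l.map (fun z => z.1)).prod : ℕ) : ℤ) := by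
    rw [List.map_map, Nat.cast_list_prod, List.map_map]
    rfl
  have hB : ((l.map f).map (fun y => y.2)).prod = (((l.map (fun z => z.2)).prod : ℕ) : ℤ) := by
    rw [List.map_map, Nat.cast_list_prod, List.map_map]
    rfl
  have hS : ((l.map f).map (fun y => y.1 - y.2)).sum
      = (((l.map (fun z => z.1 - z.2)).sum : ℕ) : ℤ) := by
    rw [List.map_map, Nat.cast_list_sum, List.map_map]
    congr 1
    apply List.map_congr_left
    intro z hz
    have := (hl z hz).1.2.1
    simp only [Function.comp, f]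
    omega
  obtain ⟨N, hN1, hN2, hN3⟩ := chain (p := (p : ℤ)) (M := (M : ℤ))
    (by exact_mod_cast hp.pos) (by exact_mod_cast hM0) (by omega) (c : ℤ) (w2 : ℤ) (by omega)
    (by omega) l' (by
      intro z hz
      simp only [l', List.mem_cons, List.mem_map] at hz
      rcases hz with rfl | ⟨y, hy, rfl⟩
      · simp only [Ok]
        norm_num
      · obtain ⟨h1, h2, h3, h4⟩ := (hl y hy).1
        simp only [Ok, f]
        omega)
    (by
      intro z hz
      simp only [l', List.mem_cons, List.mem_map] at hz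
      rcases hz with rfl | ⟨y, hy, rfl⟩
      · simp only
        have := hp.two_le
        omega
      · have := (hl y hy).2
        simp only [f]
        omega)
    (by
      simp only [l', List.map_cons, List.sum_cons]
      rw [hS]
      omega)
    (by
      simp only [l', List.map_cons, List.prod_cons]
      rw [hA, hB]
      have h1 : (3 : ℤ) * c * (PP l : ℕ) = M * (w2 : ℤ) ^ 2 := by exact_mod_cast hprod2
      rw [← h1, PP]
      push_cast
      ring)
  exact polygon_of_multiset hp hp2 hcop N hN1 hN2 (by exact_mod_cast hN3)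

end Pool.Agent.Lib.MP_11675a_co
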