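import Mathlib

/-!
# Counting lemmas

Numbers with many prime factors, numbers with small prime factors and few of them, and numbers
divisible by a product `p q` with `q` close to `p`.
-/

set_option autoImplicit false

namespace Pool.Agent.Lib.MP_11675a_co

open Finset

lemma two_pow_card_le {m : ℕ} (hm : m ≠ 0) : 2 ^ m.primeFactors.card ≤ m.divisors.card := by
  rw [Nat.card_divisors hm, ← Finset.prod_const]
  refine Finset.prod_le_prod' fun p hp => ?_
  have h1 : 0 < m.factorization p := by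
    rw [Nat.pos_iff_ne_zero, ← Finsupp.mem_support_iff]
    exact hp
  omega

lemma sum_card_divisors (X : ℕ) :
    ∑ m ∈ Ioc 0 X, m.divisors.card = ∑ d ∈ Ioc 0 X, X / d := by
  have h1 : ∀ m ∈ Ioc 0 X, m.divisors.card = ∑ d ∈ Ioc 0 X, if d ∣ m then 1 else 0 := by
    intro m hm
    rw [Finset.mem_Ioc] at hm
    rw [← Finset.card_filter]
    congr 1
    ext d
    rw [Nat.mem_divisors, Finset.mem_filter, Finset.mem_Ioc]
    constructor
    · rintro ⟨hd, h0⟩
      exact ⟨⟨Nat.pos_of_dvd_of_pos hd hm.1, (Nat.le_of_dvd hm.1 hd).trans hm.2⟩, hd⟩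
    · rintro ⟨_, hd⟩
      exact ⟨hd, by omega⟩
  rw [Finset.sum_congr rfl h1, Finset.sum_comm]
  refine Finset.sum_congr rfl fun d _ => ?_
  rw [← Finset.card_filter, Nat.Ioc_filter_dvd_card_eq_div]

lemma sum_card_divisors_le (X : ℕ) (hX : 1 ≤ X) :
    ((∑ m ∈ Ioc 0 X, m.divisors.card : ℕ) : ℝ) ≤ X * (1 + Real.log X) := by
  rw [sum_card_divisors]
  push_cast
  calc ∑ d ∈ Ioc 0 X, ((X / d : ℕ) : ℝ) ≤ ∑ d ∈ Ioc 0 X, (X : ℝ) * ((d : ℝ))⁻¹ := by
        refine Finset.sum_le_sum fun d _ => ?_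
        rw [← div_eq_mul_inv]
        exact Nat.cast_div_le
    _ = X * ∑ d ∈ Icc 1 X, ((d : ℝ))⁻¹ := by
        rw [Finset.mul_sum]
        rfl
    _ ≤ X * (1 + Real.log X) := by
        have h := harmonic_le_one_add_log X
        rw [harmonic_eq_sum_Icc] at h
        push_cast at h
        exact mul_le_mul_of_nonneg_left h (by positivity)

/-- few numbers have many prime factors -/
lemma card_many (X W : ℕ) (hX : 1 ≤ X) :
    (((Ioc 0 X).filter (fun m => W < m.primeFactors.card)).card : ℝ) * 2 ^ (W + 1) ≤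
      X * (1 + Real.log X) := by
  have h1 : ((Ioc 0 X).filter (fun m => W < m.primeFactors.card)).card * 2 ^ (W + 1) ≤
      ∑ m ∈ Ioc 0 X, m.divisors.card := by
    rw [← smul_eq_mul, ← Finset.sum_const]
    refine (Finset.sum_le_sum (g := fun m => m.divisors.card) ?_).trans
      (Finset.sum_le_sum_of_subset (Finset.filter_subset _ _))
    intro m hm
    rw [Finset.mem_filter, Finset.mem_Ioc] at hm
    exact (Nat.pow_le_pow_right (by norm_num) (by omega)).trans (two_pow_card_le (by omega))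
  refine le_trans ?_ (sum_card_divisors_le X hX)
  exact_mod_cast h1

/-- a square-free number with at most `W` prime factors, all at most `Y` -/
lemma le_pow_of_smooth {m Y W : ℕ} (hsq : Squarefree m) (hY : 1 ≤ Y)
    (hq : ∀ q ∈ m.primeFactors, q ≤ Y) (hW : m.primeFactors.card ≤ W) : m ≤ Y ^ W := by
  calc m = ∏ q ∈ m.primeFactors, q := (Nat.prod_primeFactors_of_squarefree hsq).symm
    _ ≤ ∏ _q ∈ m.primeFactors, Y := Finset.prod_le_prod' hq
    _ = Y ^ m.primeFactors.card := by rw [Finset.prod_const]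
    _ ≤ Y ^ W := Nat.pow_le_pow_right hY hW

lemma inv_step {a b : ℝ} (ha : 0 < a) (hb : 0 < b) (h : b ^ 2 = a ^ 2 + 1) :
    1 / b ^ 3 ≤ 2 / a - 2 / b := by
  have hab : a ≤ b := by nlinarith
  have h1 : 2 / a - 2 / b = 2 / (a * b * (a + b)) := by
    have h2 : (b - a) * (a + b) = 1 := by linarith [h]
    field_simp
    linarith
  rw [h1, div_le_div_iff₀ (by positivity) (by positivity)]
  have h2 : a * b * (a + b) ≤ b * b * (b + b) := by gcongr
  nlinarith

lemma sum_inv_le (Y : ℕ) (hY : 1 ≤ Y) : ∀ X, Y ≤ X →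
    ∑ n ∈ Ioc Y X, 1 / (Real.sqrt n) ^ 3 ≤ 2 / Real.sqrt Y - 2 / Real.sqrt X := by
  intro X hX
  induction X, hX using Nat.le_induction with
  | base => simp
  | succ X hX ih =>
    rw [Finset.sum_Ioc_succ_top (by omega)]
    have hX0 : (0 : ℝ) < X := by
      have : 0 < X := by omega
      exact_mod_cast this
    have h := inv_step (a := Real.sqrt X) (b := Real.sqrt ((X + 1 : ℕ) : ℝ))
      (Real.sqrt_pos.mpr hX0) (Real.sqrt_pos.mpr (by push_cast; linarith)) (by
        rw [Real.sq_sqrt (by positivity), Real.sq_sqrt hX0.le]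
        push_cast
        ring)
    linarith

/-- `p ≤ t ^ 4` for this `t` -/
def tp (p : ℕ) : ℕ := Nat.sqrt (Nat.sqrt p) + 1

lemma le_tp (p : ℕ) : p ≤ tp p ^ 4 := by
  have h1 : p < (Nat.sqrt p + 1) * (Nat.sqrt p + 1) := Nat.lt_succ_sqrt p
  have h2 : Nat.sqrt p < tp p * tp p := Nat.lt_succ_sqrt (Nat.sqrt p)
  have h3 : (Nat.sqrt p + 1) * (Nat.sqrt p + 1) ≤ (tp p * tp p) * (tp p * tp p) :=
    Nat.mul_le_mul h2 h2
  have h4 : (tp p * tp p) * (tp p * tp p) = tp p ^ 4 := by ring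
  omega

lemma tp_le (p : ℕ) (hp : 1 ≤ p) : 11 * tp p + 26 ≤ 48 * Nat.sqrt p := by
  have h1 : 1 ≤ Nat.sqrt p := by
    rw [Nat.le_sqrt]
    omega
  have h2 : Nat.sqrt (Nat.sqrt p) ≤ Nat.sqrt p := Nat.sqrt_le_self _
  unfold tp
  omega

open Classical in
/-- numbers divisible by `p q`, where `Y < p` and `p - W (11 t + 26) < q < p` -/
lemma card_close (X Y W : ℕ) (hY : 1 ≤ Y) (hYW : (96 * W) ^ 2 ≤ Y) :
    (((Ioc 0 X).filter (fun m => ∃ p q : ℕ, Y < p ∧ q < p ∧ p < q + W * (11 * tp p + 26) ∧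
      p * q ∣ m)).card : ℝ) ≤ 192 * W * X / Real.sqrt Y := by
  -- the intervals
  set J : ℕ → Finset ℕ := fun p => Ioo (p - W * (11 * tp p + 26)) p with hJ
  have hsub : (Ioc 0 X).filter (fun m => ∃ p q : ℕ, Y < p ∧ q < p ∧
      p < q + W * (11 * tp p + 26) ∧ p * q ∣ m) ⊆
      (Ioc Y X).biUnion fun p => (J p).biUnion fun q => (Ioc 0 X).filter (fun m => p * q ∣ m) := by
    intro m hm
    rw [Finset.mem_filter, Finset.mem_Ioc] at hm
    obtain ⟨hm1, p, q, h1, h2, h3, h4⟩ := hm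
    have hpm : p ≤ m := Nat.le_of_dvd hm1.1 ((Dvd.intro _ rfl).trans h4)
    have hwp : W * (11 * tp p + 26) ≤ p := by
      rcases Nat.eq_zero_or_pos W with h | h
      · subst h; simp
      · have h5 := tp_le p (by omega)
        have h6 : 96 * W ≤ Nat.sqrt p := by
          rw [Nat.le_sqrt]
          have : 96 * W * (96 * W) = (96 * W) ^ 2 := by ring
          omega
        have h7 : Nat.sqrt p * Nat.sqrt p ≤ p := Nat.sqrt_le p
        calc W * (11 * tp p + 26) ≤ W * (48 * Nat.sqrt p) := Nat.mul_le_mul_left _ h5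
          _ = (48 * W) * Nat.sqrt p := by ring
          _ ≤ Nat.sqrt p * Nat.sqrt p := Nat.mul_le_mul_right _ (by omega)
          _ ≤ p := h7
    rw [Finset.mem_biUnion]
    refine ⟨p, by rw [Finset.mem_Ioc]; omega, ?_⟩
    rw [Finset.mem_biUnion]
    refine ⟨q, ?_, by rw [Finset.mem_filter, Finset.mem_Ioc]; exact ⟨hm1, h4⟩⟩
    simp only [hJ, Finset.mem_Ioo]
    omega
  have hcard := (Finset.card_le_card hsub).trans
    (Finset.card_biUnion_le.trans (Finset.sum_le_sum fun p _ => Finset.card_biUnion_le))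
  have hterm : ∀ p ∈ Ioc Y X, ((∑ q ∈ J p, ((Ioc 0 X).filter (fun m => p * q ∣ m)).card : ℕ) : ℝ) ≤
      96 * W * X * (1 / (Real.sqrt p) ^ 3) := by
    intro p hp
    rw [Finset.mem_Ioc] at hp
    have hp1 : 1 ≤ p := by omega
    have hp0 : (0 : ℝ) < p := by exact_mod_cast hp1
    have hs0 : 0 < Real.sqrt p := Real.sqrt_pos.mpr hp0
    have hs1 : Real.sqrt p * Real.sqrt p = p := Real.mul_self_sqrt hp0.le
    have h5 := tp_le p hp1
    have h6 : 96 * W ≤ Nat.sqrt p := by
      rw [Nat.le_sqrt]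
      have : 96 * W * (96 * W) = (96 * W) ^ 2 := by ring
      omega
    have h7 : Nat.sqrt p * Nat.sqrt p ≤ p := Nat.sqrt_le p
    have h8 : W * (11 * tp p + 26) ≤ 48 * W * Nat.sqrt p := by
      calc W * (11 * tp p + 26) ≤ W * (48 * Nat.sqrt p) := Nat.mul_le_mul_left _ h5
        _ = 48 * W * Nat.sqrt p := by ring
    have h9 : 2 * (W * (11 * tp p + 26)) ≤ p := by
      have : 96 * W * Nat.sqrt p ≤ Nat.sqrt p * Nat.sqrt p := Nat.mul_le_mul_right _ h6
      have h10 : 2 * (48 * W * Nat.sqrt p) = 96 * W * Nat.sqrt p := by ring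
      omega
    have hsq : ((Nat.sqrt p : ℕ) : ℝ) ≤ Real.sqrt p := Real.nat_sqrt_le_real_sqrt
    have hcJ : ((J p).card : ℝ) ≤ 48 * W * Real.sqrt p := by
      have h10 : (J p).card ≤ W * (11 * tp p + 26) := by
        simp only [hJ, Nat.card_Ioo]
        omega
      have h11 : ((J p).card : ℝ) ≤ ((48 * W * Nat.sqrt p : ℕ) : ℝ) := by
        exact_mod_cast h10.trans h8
      refine h11.trans ?_
      push_cast
      exact mul_le_mul_of_nonneg_left hsq (by positivity)
    push_cast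
    calc ∑ q ∈ J p, (((Ioc 0 X).filter (fun m => p * q ∣ m)).card : ℝ)
        ≤ ∑ _q ∈ J p, 2 * (X : ℝ) / (p : ℝ) ^ 2 := by
          refine Finset.sum_le_sum fun q hq => ?_
          simp only [hJ, Finset.mem_Ioo] at hq
          rw [Nat.Ioc_filter_dvd_card_eq_div]
          have hq1 : p ≤ 2 * q := by omega
          have hq2 : (p : ℝ) ≤ 2 * q := by exact_mod_cast hq1
          refine Nat.cast_div_le.trans ?_
          push_cast
          have hq0 : (0 : ℝ) < q := by linarith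
          rw [div_le_div_iff₀ (by positivity) (by positivity)]
          have hX0 : (0 : ℝ) ≤ X := by positivity
          nlinarith [mul_nonneg hX0 hp0.le]
      _ = (J p).card * (2 * (X : ℝ) / (p : ℝ) ^ 2) := by
          rw [Finset.sum_const, nsmul_eq_mul]
      _ ≤ 48 * W * Real.sqrt p * (2 * (X : ℝ) / (p : ℝ) ^ 2) :=
          mul_le_mul_of_nonneg_right hcJ (by positivity)
      _ = 96 * W * X * (1 / (Real.sqrt p) ^ 3) := by
          have h12 : (p : ℝ) ^ 2 = (Real.sqrt p) ^ 4 := by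
            have h13 : (Real.sqrt p) ^ 4 = (Real.sqrt p * Real.sqrt p) ^ 2 := by ring
            rw [h13, hs1]
          rw [h12]
          field_simp
          ring
  rcases Nat.lt_or_ge X Y with hXY | hXY
  · rw [Finset.Ioc_eq_empty (a := Y) (b := X) (by omega), Finset.sum_empty] at hcard
    have : (((Ioc 0 X).filter (fun m => ∃ p q : ℕ, Y < p ∧ q < p ∧
      p < q + W * (11 * tp p + 26) ∧ p * q ∣ m)).card : ℝ) ≤ 0 := by
      exact_mod_cast hcard
    exact this.trans (by positivity)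
  · calc (((Ioc 0 X).filter (fun m => ∃ p q : ℕ, Y < p ∧ q < p ∧
          p < q + W * (11 * tp p + 26) ∧ p * q ∣ m)).card : ℝ)
        ≤ ((∑ p ∈ Ioc Y X, ∑ q ∈ J p, ((Ioc 0 X).filter (fun m => p * q ∣ m)).card : ℕ) : ℝ) := by
          exact_mod_cast hcard
      _ = ∑ p ∈ Ioc Y X, ((∑ q ∈ J p, ((Ioc 0 X).filter (fun m => p * q ∣ m)).card : ℕ) : ℝ) := by
          push_cast
          rfl
      _ ≤ ∑ p ∈ Ioc Y X, 96 * W * X * (1 / (Real.sqrt p) ^ 3) := Finset.sum_le_sum hterm
      _ = 96 * W * X * ∑ p ∈ Ioc Y X, 1 / (Real.sqrt p) ^ 3 := by rw [Finset.mul_sum]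
      _ ≤ 96 * W * X * (2 / Real.sqrt Y - 2 / Real.sqrt X) :=
          mul_le_mul_of_nonneg_left (sum_inv_le Y hY X hXY) (by positivity)
      _ ≤ 96 * W * X * (2 / Real.sqrt Y) := by
          refine mul_le_mul_of_nonneg_left ?_ (by positivity)
          have : 0 ≤ 2 / Real.sqrt X := by positivity
          linarith
      _ = 192 * W * X / Real.sqrt Y := by ring

end Pool.Agent.Lib.MP_11675a_co
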