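import Mathlib
import Pool.Agent.Lib.MP_11675a_co.Assemble

/-!
# Equilateral polygons of arbitrary odd size
-/

set_option autoImplicit false

namespace Pool.Agent.Lib.MP_11675a_co

/-- The side vectors of an equilateral `n`-gon of `Λ(m)`: `n` vectors of `Λ(m)`, all of the same
positive length, with sum zero. -/
def HasEquilateralSides (m n : ℕ) : Prop :=
  ∃ e : Fin n → EuclideanSpace ℝ (Fin 2), (∀ i, e i ∈ Lat m) ∧
    (∃ L : ℝ, 0 < L ∧ ∀ i, ‖e i‖ = L) ∧ ∑ i, e i = 0

/-- `n` elements of norm one with sum zero -/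
def Sides (m n : ℕ) : Prop :=
  ∃ N : Multiset (ℚ × ℚ), Multiset.card N = n ∧ N.sum = 0 ∧ ∀ z ∈ N, Uni (m : ℚ) z

lemma Sides.add_two {m n : ℕ} (h : Sides m n) : Sides m (n + 2) := by
  obtain ⟨N, h1, h2, h3⟩ := h
  refine ⟨(1, 0) ::ₘ (-1, 0) ::ₘ N, by simp [h1], ?_, ?_⟩
  · rw [Multiset.sum_cons, Multiset.sum_cons, h2, add_zero]
    ext <;> simp
  · intro z hz
    rw [Multiset.mem_cons, Multiset.mem_cons] at hz
    rcases hz with rfl | rfl | hz
    · exact uni_one _
    · simp [Uni]
    · exact h3 z hz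

lemma Sides.add {m n : ℕ} (h : Sides m n) : ∀ k, Sides m (n + 2 * k)
  | 0 => h
  | k + 1 => by
    have := (Sides.add h k).add_two
    have e : n + 2 * (k + 1) = n + 2 * k + 2 := by ring
    rw [e]
    exact this

lemma Sides.zero (m : ℕ) : Sides m 0 := ⟨0, rfl, rfl, by simp⟩

/-- all sizes from an odd size on -/
lemma Sides.of_le {m n₀ n : ℕ} (h : Sides m n₀) (hodd : n₀ % 2 = 1) (hn : n₀ ≤ n) : Sides m n := by
  rcases Nat.mod_two_eq_zero_or_one n with h2 | h2
  · have := (Sides.zero m).add (n / 2)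
    have e : 0 + 2 * (n / 2) = n := by omega
    rwa [e] at this
  · have := h.add ((n - n₀) / 2)
    have e : n₀ + 2 * ((n - n₀) / 2) = n := by omega
    rwa [e] at this

theorem Sides.vectors {m n : ℕ} (h : Sides m n) : HasEquilateralSides m n := by
  obtain ⟨N, hcard, hsum, huni⟩ := h
  obtain ⟨D, hD, hden⟩ := common_den N
  set l := N.toList with hl
  have hlen : l.length = n := by
    rw [hl, Multiset.length_toList, hcard]
  have hf : ∀ i < n, l.getD i 0 ∈ N := by
    intro i hi
    rw [List.getD_eq_getElem _ _ (by omega)]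
    rw [← Multiset.mem_toList]
    exact List.getElem_mem _
  have hsum0 : ∑ i ∈ Finset.range n, l.getD i 0 = 0 := by
    rw [← hlen, sum_range_getD, hl, Multiset.sum_toList, hsum]
  have hs1 : ∑ i ∈ Finset.range n, (l.getD i 0).1 = 0 := by
    have h1 := congrArg Prod.fst hsum0
    rw [Prod.fst_sum] at h1
    exact h1
  have hs2 : ∑ i ∈ Finset.range n, (l.getD i 0).2 = 0 := by
    have h1 := congrArg Prod.snd hsum0
    rw [Prod.snd_sum] at h1
    exact h1
  have hDR : (0 : ℝ) < D := by exact_mod_cast hD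
  refine ⟨fun i => !₂[(D : ℝ) * (((l.getD i 0).1 : ℚ) : ℝ),
    (D : ℝ) * (((l.getD i 0).2 : ℚ) : ℝ) * Real.sqrt m], ?_, ⟨D, hDR, ?_⟩, ?_⟩
  · intro i
    obtain ⟨a, b, ha, hb⟩ := hden _ (hf i i.2)
    refine ⟨a, b, ?_, ?_⟩
    · have : ((D : ℝ) * (((l.getD i 0).1 : ℚ) : ℝ)) = (a : ℝ) := by exact_mod_cast ha
      exact this
    · have : ((D : ℝ) * (((l.getD i 0).2 : ℚ) : ℝ)) = (b : ℝ) := by exact_mod_cast hb
      show (D : ℝ) * (((l.getD i 0).2 : ℚ) : ℝ) * Real.sqrt m = (b : ℝ) * Real.sqrt m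
      rw [this]
  · intro i
    have h1 := huni _ (hf i i.2)
    simp only [Uni] at h1
    have h2 : ((((l.getD i 0).1 : ℚ) : ℝ)) ^ 2 + (m : ℝ) * ((((l.getD i 0).2 : ℚ) : ℝ)) ^ 2 = 1 := by
      exact_mod_cast h1
    rw [EuclideanSpace.norm_eq]
    simp only [Fin.sum_univ_two, Matrix.cons_val_zero, Matrix.cons_val_one,
      Real.norm_eq_abs, sq_abs]
    have hm : Real.sqrt m ^ 2 = m := Real.sq_sqrt (by positivity)
    have h3 : ((D : ℝ) * (((l.getD i 0).1 : ℚ) : ℝ)) ^ 2 +
        ((D : ℝ) * (((l.getD i 0).2 : ℚ) : ℝ) * Real.sqrt m) ^ 2 = (D : ℝ) ^ 2 := by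
      rw [mul_pow, mul_pow, mul_pow, hm]
      linear_combination (D : ℝ) ^ 2 * h2
    rw [h3]
    exact Real.sqrt_sq hDR.le
  · have key1 : ∑ i : Fin n, (((l.getD i 0).1 : ℚ) : ℝ) = 0 := by
      rw [Fin.sum_univ_eq_sum_range (fun i => (((l.getD i 0).1 : ℚ) : ℝ)) n]
      exact_mod_cast hs1
    have key2 : ∑ i : Fin n, (((l.getD i 0).2 : ℚ) : ℝ) = 0 := by
      rw [Fin.sum_univ_eq_sum_range (fun i => (((l.getD i 0).2 : ℚ) : ℝ)) n]
      exact_mod_cast hs2
    ext j
    fin_cases j
    · simp only [WithLp.ofLp_sum, Finset.sum_apply, Fin.zero_eta,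
        Matrix.cons_val_zero, PiLp.zero_apply]
      rw [← Finset.mul_sum, key1, mul_zero]
    · simp only [WithLp.ofLp_sum, Finset.sum_apply, Fin.mk_one,
        Matrix.cons_val_one, Matrix.cons_val_fin_one, PiLp.zero_apply]
      rw [← Finset.sum_mul, ← Finset.mul_sum, key2, mul_zero, zero_mul]

/-- the assembly for the total `n = 9 r` -/
theorem assemble_general {n m c r rM rc rr : ℕ} (hn : n = 9 * r) (hodd : r % 2 = 1)
    (hm : m % 4 = 3) (hc4 : c % 4 = n % 4)
    (hM : Red (n + c) m rM) (hc : Red (n + c) c rc) (hr : Red (n + c) r rr)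
    (hcost : c + rM + rc + rr + 4 ≤ n) : Sides m n := by
  have hm0 : 0 < m := by omega
  have hn0 : 0 < n := by omega
  have h3 : Red (n + c) 3 0 := by
    have := Red.three_sq (n + c) 1
    simpa using this
  have hT := ((h3.mul hc).mul hM).mul hr
  obtain ⟨l, e, w, s, he, hs, hl, hsum, hprod⟩ := hT
  have hdvd : s ^ 2 ∣ e * w ^ 2 := ⟨_, by rw [← hprod, mul_comm]⟩
  obtain ⟨w1, rfl⟩ := dvd_of_sq_dvd he hs hdvd
  have hprod1 : 3 * c * m * r * PP l = e * w1 ^ 2 := by
    have : s ^ 2 * (3 * c * m * r * PP l) = s ^ 2 * (e * w1 ^ 2) := by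
      calc _ = 3 * c * m * r * PP l * s ^ 2 := by ring
        _ = e * (s * w1) ^ 2 := hprod
        _ = _ := by ring
    exact Nat.eq_of_mul_eq_mul_left (by positivity) this
  have hPPmod := PP_mod l (fun z hz => (hl z hz).1)
  have hr2 := odd_sq_mod r hodd
  -- mod 4
  have hmod : (3 * c * m * r * PP l) % 4 = 1 := by
    have hcr : c % 4 = r % 4 := by omega
    have h1 : (3 * c * m * r) % 4 = 1 := by
      have h2 : (c * m * r) % 4 = 3 := by
        have e1 : c * m * r = c * r * m := by ring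
        have e2 : (c * r) % 4 = 1 := by
          rw [Nat.mul_mod, hcr, ← Nat.mul_mod, ← sq]
          omega
        rw [e1, Nat.mul_mod, e2, hm]
      have h3 : 3 * c * m * r = 3 * (c * m * r) := by ring
      rw [h3, Nat.mul_mod, h2]
    rw [Nat.mul_mod, h1, hPPmod]
  have he1 : e = 1 := by
    rcases he with he | he
    · exact he
    · exfalso
      rw [hprod1, he] at hmod
      have hw1 : w1 % 2 = 1 := by
        rcases Nat.mod_two_eq_zero_or_one w1 with h | h
        · exfalso
          have : (3 * w1 ^ 2) % 2 = 0 := by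
            rw [Nat.mul_mod, Nat.pow_mod, h]
          omega
        · exact h
      have := odd_sq_mod w1 hw1
      omega
  rw [he1, one_mul] at hprod1
  have hc0 : 0 < c := by omega
  have hPP0 : 0 < PP l := by omega
  -- the integer list
  let f : ℕ × ℕ → ℤ × ℤ := fun z => ((z.1 : ℤ), (z.2 : ℤ))
  let l' : List (ℤ × ℤ) := (3, -1) :: l.map f
  have hA : ((l.map f).map (fun y => y.1)).prod = (((l.map (fun z => z.1)).prod : ℕ) : ℤ) := by
    rw [List.map_map, Nat.cast_list_prod, List.map_map]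
    rfl
  have hB : ((l.map f).map (fun y => y.2)).prod = (((l.map (fun z => z.2)).prod : ℕ) : ℤ) := by
    rw [List.map_map, Nat.cast_list_prod, List.map_map]
    rfl
  have hS : ((l.map f).map (fun y => y.1 - y.2)).sum
      = (((l.map (fun z => z.1 - z.2)).sum : ℕ) : ℤ) := by
    rw [List.map_map, Nat.cast_list_sum, List.map_map]
    congr 1
    apply List.map_congr_left
    intro z hz
    have := (hl z hz).1.2.1
    simp only [Function.comp, f]
    omega
  obtain ⟨N, hN1, hN2, hN3⟩ := chain (p := (n : ℤ)) (M := ((3 * c * PP l : ℕ) : ℤ))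
    (by exact_mod_cast hn0) (by exact_mod_cast (by positivity : 0 < 3 * c * PP l)) (by omega)
    (c : ℤ) 1 (by omega) (by omega) l' (by
      intro z hz
      simp only [l', List.mem_cons, List.mem_map] at hz
      rcases hz with rfl | ⟨y, hy, rfl⟩
      · simp only [Ok]
        norm_num
      · obtain ⟨h1, h2, h3, h4⟩ := (hl y hy).1
        simp only [Ok, f]
        omega)
    (by
      intro z hz
      simp only [l', List.mem_cons, List.mem_map] at hz
      rcases hz with rfl | ⟨y, hy, rfl⟩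
      · simp only
        omega
      · have := (hl y hy).2
        simp only [f]
        omega)
    (by
      simp only [l', List.map_cons, List.sum_cons]
      rw [hS]
      omega)
    (by
      simp only [l', List.map_cons, List.prod_cons]
      rw [hA, hB, PP]
      push_cast
      ring)
  -- scaling
  have hmQ : (m : ℚ) ≠ 0 := by exact_mod_cast hm0.ne'
  let κ : ℚ := 3 * w1 / m
  have hκ : ((((n : ℤ) * ((3 * c * PP l : ℕ) : ℤ)) : ℤ) : ℚ) = m * κ ^ 2 := by
    have h1 : (3 : ℚ) * c * m * r * (PP l : ℕ) = (w1 : ℚ) ^ 2 := by exact_mod_cast hprod1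
    simp only [κ]
    rw [hn]
    push_cast
    field_simp
    linear_combination 3 * h1
  let g : ℚ × ℚ →+ ℚ × ℚ :=
    { toFun := fun z => (z.1, κ * z.2)
      map_zero' := by simp
      map_add' := by
        intro a b
        ext
        · simp
        · simp [mul_add] }
  refine ⟨N.map g, ?_, ?_, ?_⟩
  · rw [Multiset.card_map]
    exact_mod_cast hN1
  · rw [← map_multiset_sum, hN2, map_zero]
  · intro z hz
    obtain ⟨y, hy, rfl⟩ := Multiset.mem_map.mp hz
    have h1 := hN3 y hy
    rw [hκ] at h1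
    simp only [Uni] at h1 ⊢
    show y.1 ^ 2 + (m : ℚ) * (κ * y.2) ^ 2 = 1
    rw [← h1]
    ring

end Pool.Agent.Lib.MP_11675a_co
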