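import Mathlib

/-!
# The choice of the parameters
-/

set_option autoImplicit false

namespace Pool.Agent.Lib.MP_11675a_co

lemma growth (X : ℕ) (hX : 1 ≤ X) (L : ℝ) (hL0 : 30 ≤ L) (hL : L ^ 2 = Real.log X) :
    ∃ W Y : ℕ, 1 ≤ Y ∧ (96 * W) ^ 2 ≤ Y ∧
      ((Y ^ W : ℕ) : ℝ) + X * (1 + Real.log X) / 2 ^ (W + 1) + 192 * W * X / Real.sqrt Y ≤
        7000 * X * Real.exp (-(L / 2)) := by
  have hX0 : (0 : ℝ) < X := by exact_mod_cast hX
  have hXe : (X : ℝ) = Real.exp (L ^ 2) := by rw [hL, Real.exp_log hX0]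
  set E : ℝ := Real.exp (11 / 10 * L) with hE
  set W : ℕ := ⌊4 / 5 * L⌋₊ with hW
  set Y : ℕ := ⌊E⌋₊ with hY
  have hE0 : 0 < E := Real.exp_pos _
  have hW1 : (W : ℝ) ≤ 4 / 5 * L := Nat.floor_le (by linarith)
  have hW2 : 4 / 5 * L ≤ W + 1 := (Nat.lt_floor_add_one _).le
  have hY1 : (Y : ℝ) ≤ E := Nat.floor_le hE0.le
  have hY2 : E ≤ Y + 1 := (Nat.lt_floor_add_one _).le
  have hW0 : (0 : ℝ) ≤ W := by positivity
  -- lower bound for `E`
  have hF : 77 * L ≤ Real.exp (11 / 20 * L) := by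
    have h1 := Real.pow_div_factorial_le_exp (11 / 20 * L) (by linarith) 4
    have h2 : (Nat.factorial 4 : ℝ) = 24 := by norm_num [Nat.factorial]
    rw [h2] at h1
    refine le_trans ?_ h1
    rw [le_div_iff₀ (by norm_num)]
    have h3 : (27000 : ℝ) ≤ L ^ 3 := by
      have : (30 : ℝ) ^ 3 ≤ L ^ 3 := pow_le_pow_left₀ (by norm_num) hL0 3
      linarith
    nlinarith
  have hEF : E = Real.exp (11 / 20 * L) ^ 2 := by
    rw [hE, ← Real.exp_nat_mul]
    congr 1
    push_cast
    ring
  have hE1 : 4 ≤ E := by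
    rw [hEF]
    nlinarith
  have hYW : (96 * W) ^ 2 ≤ Y := by
    apply Nat.le_floor
    push_cast
    rw [hEF]
    have h1 : 96 * (W : ℝ) ≤ 77 * L := by linarith
    exact pow_le_pow_left₀ (by positivity) (h1.trans hF) 2
  refine ⟨W, Y, ?_, hYW, ?_⟩
  · apply Nat.le_floor
    push_cast
    linarith
  -- the three terms
  have hexp : ∀ a b : ℝ, a ≤ b → Real.exp a ≤ Real.exp b := fun a b h => Real.exp_le_exp.mpr h
  have t1 : ((Y ^ W : ℕ) : ℝ) ≤ 3 * (X * Real.exp (-(L / 2))) := by
    push_cast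
    calc (Y : ℝ) ^ W ≤ E ^ W := pow_le_pow_left₀ (by positivity) hY1 W
      _ = Real.exp (W * (11 / 10 * L)) := by rw [hE, ← Real.exp_nat_mul]
      _ ≤ Real.exp (1 + (L ^ 2 + -(L / 2))) := by
          apply hexp
          have h1 : (W : ℝ) * (11 / 10 * L) ≤ 4 / 5 * L * (11 / 10 * L) :=
            mul_le_mul_of_nonneg_right hW1 (by linarith)
          nlinarith [sq_nonneg (L - 2)]
      _ = Real.exp 1 * (X * Real.exp (-(L / 2))) := by
          rw [Real.exp_add, Real.exp_add, hXe]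
      _ ≤ 3 * (X * Real.exp (-(L / 2))) := by
          refine mul_le_mul_of_nonneg_right ?_ (by positivity)
          exact (Real.exp_one_lt_d9.trans (by norm_num)).le
  have t2 : X * (1 + Real.log X) / 2 ^ (W + 1) ≤ 687 * (X * Real.exp (-(L / 2))) := by
    rw [← hL]
    have h1 : Real.exp (277 / 500 * L) ≤ 2 ^ (W + 1) := by
      have h2 : (2 : ℝ) ^ (W + 1) = Real.exp ((W + 1 : ℕ) * Real.log 2) := by
        rw [Real.exp_nat_mul, Real.exp_log (by norm_num)]
      rw [h2]
      apply hexp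
      push_cast
      have h3 : (0.6931471803 : ℝ) < Real.log 2 := Real.log_two_gt_d9
      calc 277 / 500 * L ≤ (4 / 5 * L) * 0.6931471803 := by nlinarith
        _ ≤ (W + 1) * Real.log 2 := mul_le_mul hW2 h3.le (by norm_num) (by linarith)
    have h4 : 1 + L ^ 2 ≤ 687 * Real.exp (27 / 500 * L) := by
      have h5 := Real.pow_div_factorial_le_exp (27 / 500 * L) (by linarith) 2
      have h6 : (Nat.factorial 2 : ℝ) = 2 := by norm_num [Nat.factorial]
      rw [h6] at h5
      have h7 := Real.one_le_exp (x := 27 / 500 * L) (by linarith)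
      nlinarith
    have h8 : Real.exp (277 / 500 * L) = Real.exp (27 / 500 * L) * Real.exp (L / 2) := by
      rw [← Real.exp_add]
      congr 1
      ring
    rw [div_le_iff₀ (by positivity)]
    have h9 : Real.exp (-(L / 2)) * Real.exp (L / 2) = 1 := by
      rw [← Real.exp_add]
      simp
    calc X * (1 + L ^ 2) ≤ X * (687 * Real.exp (27 / 500 * L)) :=
          mul_le_mul_of_nonneg_left h4 hX0.le
      _ = 687 * (X * Real.exp (-(L / 2))) * (Real.exp (27 / 500 * L) * Real.exp (L / 2)) := by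
          linear_combination (-(687 * X * Real.exp (27 / 500 * L))) * h9
      _ ≤ 687 * (X * Real.exp (-(L / 2))) * 2 ^ (W + 1) := by
          rw [← h8]
          exact mul_le_mul_of_nonneg_left h1 (by positivity)
  have t3 : 192 * W * X / Real.sqrt Y ≤ 6144 * (X * Real.exp (-(L / 2))) := by
    have h1 : Real.exp (11 / 20 * L) / 2 ≤ Real.sqrt Y := by
      apply Real.le_sqrt_of_sq_le
      rw [div_pow, ← hEF]
      linarith
    have h2 : Real.exp (11 / 20 * L) = Real.exp (1 / 20 * L) * Real.exp (L / 2) := by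
      rw [← Real.exp_add]
      congr 1
      ring
    have h3 : L ≤ 20 * Real.exp (1 / 20 * L) := by
      have := Real.add_one_le_exp (1 / 20 * L)
      linarith
    have h9 : Real.exp (-(L / 2)) * Real.exp (L / 2) = 1 := by
      rw [← Real.exp_add]
      simp
    have hsY : 0 < Real.sqrt Y := lt_of_lt_of_le (by positivity) h1
    rw [div_le_iff₀ hsY]
    calc 192 * (W : ℝ) * X ≤ 192 * (4 / 5 * L) * X := by gcongr
      _ ≤ 192 * (4 / 5 * (20 * Real.exp (1 / 20 * L))) * X := by gcongr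
      _ = 6144 * (X * Real.exp (-(L / 2))) *
            ((Real.exp (1 / 20 * L) * Real.exp (L / 2)) / 2) := by
          linear_combination (-(3072 * X * Real.exp (1 / 20 * L))) * h9
      _ ≤ 6144 * (X * Real.exp (-(L / 2))) * Real.sqrt Y := by
          rw [← h2]
          exact mul_le_mul_of_nonneg_left h1 (by positivity)
  have hp : 0 ≤ X * Real.exp (-(L / 2)) := by positivity
  have : 7000 * X * Real.exp (-(L / 2)) = 7000 * (X * Real.exp (-(L / 2))) := by ring
  rw [this]
  linarith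

end Pool.Agent.Lib.MP_11675a_co
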