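import Mathlib
import Pool.Agent.Lib.MP_11675a_co.Defs

set_option autoImplicit false

namespace Pool.Agent.Lib.MP_11675a_co

/-- pair up consecutive entries; a last unpaired entry is paired with `e`. -/
def pairUp (e : ℤ) : List ℤ → List (ℤ × ℤ)
  | [] => []
  | [q] => [(q, e)]
  | q1 :: q2 :: t => (q1, q2) :: pairUp e t

lemma pairUp_ok (e : ℤ) (he : e = 1 ∨ e = -1) : ∀ (L : List ℤ), L.Pairwise (· > ·) →
    (∀ x ∈ L, 0 < x ∧ (x - e) % 4 = 0) → ∀ z ∈ pairUp e L, Ok z
  | [], _, _ => by simp [pairUp]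
  | [q], _, h => by
    intro z hz
    obtain ⟨h1, h2⟩ := h q (by simp)
    simp only [pairUp, List.mem_singleton] at hz
    subst hz
    simp only [Ok]
    omega
  | q1 :: q2 :: t, hs, h => by
    intro z hz
    obtain ⟨h1, h2⟩ := h q1 (by simp)
    obtain ⟨h3, h4⟩ := h q2 (by simp)
    have hs1 := List.pairwise_cons.mp hs
    have hs2 := List.pairwise_cons.mp hs1.2
    have h5 : q1 > q2 := hs1.1 q2 (by simp)
    simp only [pairUp, List.mem_cons] at hz
    rcases hz with rfl | hz
    · simp only [Ok]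
      omega
    · exact pairUp_ok e he t hs2.2 (fun x hx => h x (by simp [hx])) z hz

lemma pairUp_sum (e : ℤ) (k : ℤ) (hk : 0 ≤ k) (he : -e ≤ k) : ∀ (L : List ℤ), L.Pairwise (· > ·) →
    (∀ x ∈ L, 0 < x) → ∀ B, 0 ≤ B → (∀ x ∈ L, x ≤ B) →
      ((pairUp e L).map (fun y => y.1 - y.2)).sum ≤ B + k
  | [], _, _ => by
    intro B hB _
    simp [pairUp]
    omega
  | [q], _, h => by
    intro B hB hq
    have := hq q (by simp)
    simp [pairUp]
    omega
  | q1 :: q2 :: t, hs, h => by
    intro B hB hq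
    have hs1 := List.pairwise_cons.mp hs
    have hs2 := List.pairwise_cons.mp hs1.2
    have h1 := pairUp_sum e k hk he t hs2.2 (fun x hx => h x (by simp [hx])) q2
      (h q2 (by simp)).le (fun x hx => (hs2.1 x hx).le)
    have h2 := hq q1 (by simp)
    simp only [pairUp, List.map_cons, List.sum_cons]
    omega

lemma pairUp_sums_mem (e : ℤ) (he : e ≤ 1) (B : ℤ) : ∀ (L : List ℤ), L.Pairwise (· > ·) →
    (∀ x ∈ L, x + 1 ≤ B) → (∀ x ∈ L, ∀ y ∈ L, x ≠ y → x + y ≤ B) →
    ∀ z ∈ pairUp e L, z.1 + z.2 ≤ B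
  | [], _, _, _ => by simp [pairUp]
  | [q], _, h, _ => by
    intro z hz
    have h1 := h q (by simp)
    simp only [pairUp, List.mem_singleton] at hz
    subst hz
    simp only
    omega
  | q1 :: q2 :: t, hs, h, h' => by
    intro z hz
    have hs1 := List.pairwise_cons.mp hs
    have hs2 := List.pairwise_cons.mp hs1.2
    have h5 : q1 > q2 := hs1.1 q2 (by simp)
    simp only [pairUp, List.mem_cons] at hz
    rcases hz with rfl | hz
    · exact h' q1 (by simp) q2 (by simp) (by omega)
    · exact pairUp_sums_mem e he B t hs2.2 (fun x hx => h x (by simp [hx]))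
        (fun x hx y hy => h' x (by simp [hx]) y (by simp [hy])) z hz

lemma pairUp_prod (e : ℤ) : ∀ (L : List ℤ),
    ((pairUp e L).map (fun y => y.1)).prod * ((pairUp e L).map (fun y => y.2)).prod =
      L.prod * (if L.length % 2 = 1 then e else 1)
  | [] => by simp [pairUp]
  | [q] => by simp [pairUp]
  | q1 :: q2 :: t => by
    have ih := pairUp_prod e t
    have hl : (q1 :: q2 :: t).length % 2 = t.length % 2 := by
      simp only [List.length_cons]
      omega
    rw [hl]
    simp only [pairUp, List.map_cons, List.prod_cons]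
    calc _ = q1 * q2 * (((pairUp e t).map (fun y => y.1)).prod
        * ((pairUp e t).map (fun y => y.2)).prod) := by ring
      _ = _ := by rw [ih]; ring

lemma prod_mod_four (e : ℤ) (L : List ℤ) (h : ∀ x ∈ L, (x - e) % 4 = 0) :
    (L.prod - e ^ L.length) % 4 = 0 := by
  induction L with
  | nil => simp
  | cons a t ih =>
    have h1 := h a (by simp)
    have h2 := ih (fun x hx => h x (by simp [hx]))
    obtain ⟨u, hu⟩ := Int.dvd_of_emod_eq_zero h1
    obtain ⟨v, hv⟩ := Int.dvd_of_emod_eq_zero h2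
    apply Int.emod_eq_zero_of_dvd
    refine ⟨u * t.prod + e * v, ?_⟩
    rw [List.prod_cons, List.length_cons, pow_succ]
    linear_combination t.prod * hu + e * hv

/-- the elements of a finite set of naturals in decreasing order, as integers -/
def descList (F : Finset ℕ) : List ℤ := (F.sort (· ≥ ·)).map (fun x : ℕ => (x : ℤ))

lemma descList_pairwise (F : Finset ℕ) : (descList F).Pairwise (· > ·) := by
  rw [descList, List.pairwise_map]
  have h1 : (F.sort (· ≥ ·)).Pairwise (· ≥ ·) := Finset.pairwise_sort F _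
  have h2 : (F.sort (· ≥ ·)).Nodup := Finset.sort_nodup F _
  have h3 := h1.and h2
  refine h3.imp ?_
  intro a b ⟨h4, h5⟩
  have : b < a := lt_of_le_of_ne h4 (Ne.symm h5)
  exact_mod_cast this

lemma mem_descList (F : Finset ℕ) (x : ℤ) : x ∈ descList F ↔ ∃ n ∈ F, x = (n : ℤ) := by
  rw [descList, List.mem_map]
  constructor
  · rintro ⟨n, hn, rfl⟩
    exact ⟨n, (Finset.mem_sort _).mp hn, rfl⟩
  · rintro ⟨n, hn, rfl⟩
    exact ⟨n, (Finset.mem_sort _).mpr hn, rfl⟩

lemma descList_prod (F : Finset ℕ) : (descList F).prod = ∏ x ∈ F, (x : ℤ) := by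
  rw [descList, ((Finset.sort_perm_toList F (· ≥ ·)).map _).prod_eq, Finset.prod_map_toList]

end Pool.Agent.Lib.MP_11675a_co
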